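import Pool.Agent.Lib.MP_349275_al.Relation

/-!
The relation of length seven: verification by a normal form for words up to commutations.
-/

set_option autoImplicit false

namespace Pool.Agent.Lib.MP_349275_al

/-- Evaluation of a word. -/
noncomputable def ew (u : List (Let 6)) : FK 6 := (u.map y).prod

theorem ew_nil : ew [] = 1 := rfl

theorem ew_cons (e : Let 6) (u : List (Let 6)) : ew (e :: u) = y e * ew u := by simp [ew]

theorem ew_append (u v : List (Let 6)) : ew (u ++ v) = ew u * ew v := by simp [ew]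

theorem negone_smul (a : FK 6) : ((-1 : ℤ) : ℚ) • a = -a := by
  apply eq_neg_of_add_eq_zero_left
  have h : ((-1 : ℤ) : ℚ) • a + (1 : ℚ) • a = 0 := by
    rw [← add_smul]
    norm_num
  rwa [one_smul] at h

/-- Evaluation of a combination. -/
noncomputable def evF (C : Comb 6) : FK 6 := (C.map fun p => (p.1 : ℚ) • ew p.2).sum

theorem evF_nil : evF [] = 0 := rfl

theorem evF_cons (p : ℤ × List (Let 6)) (C : Comb 6) :
    evF (p :: C) = (p.1 : ℚ) • ew p.2 + evF C := by
  simp [evF]

theorem evF_append (C D : Comb 6) : evF (C ++ D) = evF C + evF D := by simp [evF]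

/-- The letters have no vertex in common. -/
def commB (e f : Let 6) : Bool := decide (e.1 ≠ f.1 ∧ e.1 ≠ f.2 ∧ e.2 ≠ f.1 ∧ e.2 ≠ f.2)

theorem commB_sound {e f : Let 6} (h : commB e f = true) : y e * y f = y f * y e :=
  y_comm e f (by simpa [commB] using h)

/-- Moves the letter `e` to the front, if possible. -/
def extract (e : Let 6) : List (Let 6) → Option (List (Let 6))
  | [] => none
  | f :: u => if e = f then some u else
      if commB f e then (extract e u).map (f :: ·) else none

theorem extract_sound (e : Let 6) (u v : List (Let 6)) (h : extract e u = some v) :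
    ew u = y e * ew v := by
  induction u generalizing v with
  | nil => simp [extract] at h
  | cons f u ih =>
    unfold extract at h
    split_ifs at h with h1 h2
    · simp only [Option.some.injEq] at h
      subst h1; subst h
      rw [ew_cons]
    · rw [Option.map_eq_some_iff] at h
      obtain ⟨v', hv', rfl⟩ := h
      rw [ew_cons, ew_cons, ih v' hv', ← mul_assoc, ← mul_assoc, commB_sound h2]

/-- Finds the first letter of the list which can be moved to the front. -/
def pick (u : List (Let 6)) : List (Let 6) → Option (Let 6 × List (Let 6))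
  | [] => none
  | e :: L => match extract e u with
    | some v => some (e, v)
    | none => pick u L

theorem pick_sound (u L : List (Let 6)) (e : Let 6) (v : List (Let 6))
    (h : pick u L = some (e, v)) : ew u = y e * ew v := by
  induction L with
  | nil => simp [pick] at h
  | cons f L ih =>
    unfold pick at h
    cases hx : extract f u with
    | none => rw [hx] at h; exact ih h
    | some v' =>
      rw [hx] at h
      simp only [Option.some.injEq, Prod.mk.injEq] at h
      rw [← h.1, ← h.2]
      exact extract_sound f u v' hx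

/-- The normal form. -/
def nf (L : List (Let 6)) : ℕ → List (Let 6) → List (Let 6)
  | 0, u => u
  | k + 1, u => match pick u L with
    | some (e, v) => e :: nf L k v
    | none => u

theorem nf_sound (L : List (Let 6)) (k : ℕ) (u : List (Let 6)) : ew (nf L k u) = ew u := by
  induction k generalizing u with
  | zero => rfl
  | succ k ih =>
    unfold nf
    cases hx : pick u L with
    | none => rfl
    | some q =>
      obtain ⟨e, v⟩ := q
      simp only
      rw [ew_cons, ih, ← pick_sound u L e v hx]

/-- Two consecutive equal letters. -/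
def hasSq : List (Let 6) → Bool
  | [] => false
  | [_] => false
  | e :: f :: u => decide (e = f) || hasSq (f :: u)

theorem hasSq_sound (u : List (Let 6)) (h : hasSq u = true) : ew u = 0 := by
  induction u with
  | nil => simp [hasSq] at h
  | cons e u ih =>
    cases u with
    | nil => simp [hasSq] at h
    | cons f u =>
      simp only [hasSq, Bool.or_eq_true, decide_eq_true_eq] at h
      rcases h with h | h
      · subst h
        rw [ew_cons, ew_cons, ← mul_assoc, y_sq, zero_mul]
      · rw [ew_cons, ih h, mul_zero]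

/-- Adds a term to a combination. -/
def addT (c : ℤ) (u : List (Let 6)) : Comb 6 → Comb 6
  | [] => [(c, u)]
  | (c', u') :: C => if u = u' then (if c + c' = 0 then C else (c + c', u') :: C)
      else (c', u') :: addT c u C

theorem addT_sound (c : ℤ) (u : List (Let 6)) (C : Comb 6) :
    evF (addT c u C) = (c : ℚ) • ew u + evF C := by
  induction C with
  | nil => simp [addT, evF]
  | cons p C ih =>
    obtain ⟨c', u'⟩ := p
    unfold addT
    split_ifs with h1 h2
    · subst h1
      rw [evF_cons, ← add_assoc, ← add_smul, ← Int.cast_add, h2, Int.cast_zero, zero_smul, zero_add]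
    · subst h1
      rw [evF_cons, evF_cons, ← add_assoc, ← add_smul, Int.cast_add]
    · rw [evF_cons, evF_cons, ih, ← add_assoc, ← add_assoc, add_comm ((c' : ℚ) • ew u')]

/-- Normal form of a combination. -/
def normC (L : List (Let 6)) : Comb 6 → Comb 6
  | [] => []
  | p :: C => let u := nf L 7 p.2
      if hasSq u then normC L C else addT p.1 u (normC L C)

theorem normC_sound (L : List (Let 6)) (C : Comb 6) : evF (normC L C) = evF C := by
  induction C with
  | nil => rfl
  | cons p C ih =>
    unfold normC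
    simp only
    split_ifs with h
    · rw [ih, evF_cons, ← nf_sound L 7 p.2, hasSq_sound _ h, smul_zero, zero_add]
    · rw [addT_sound, ih, evF_cons, nf_sound]

/-- The letters of the graph, and `lD`, an additional one. -/
abbrev lA : Let 6 := (0, 3)
/-- Letter. -/
abbrev lB : Let 6 := (1, 4)
/-- Letter. -/
abbrev lC : Let 6 := (2, 5)
/-- Letter. -/
abbrev lP : Let 6 := (0, 4)
/-- Letter. -/
abbrev lQ : Let 6 := (1, 5)
/-- Letter. -/
abbrev lS : Let 6 := (0, 2)
/-- Letter. -/
abbrev lT : Let 6 := (1, 3)
/-- Letter. -/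
abbrev lD : Let 6 := (0, 1)

/-- The known relations. -/
def basic : ℕ → Comb 6
  | 0 => [(1, [lD, lT]), (-1, [lT, lA]), (-1, [lA, lD])]
  | 1 => [(1, [lD, lB]), (-1, [lB, lP]), (-1, [lP, lD])]
  | 2 => [(1, [lQ, lC, lS]), (1, [lC, lS, lD]), (-1, [lD, lQ, lC]), (-1, [lS, lD, lQ])]
  | 3 => [(1, [lA, lS, lP, lA]), (1, [lP, lA, lS, lP]), (1, [lS, lP, lA, lS])]
  | 4 => [(1, [lB, lT, lQ, lB]), (1, [lQ, lB, lT, lQ]), (1, [lT, lQ, lB, lT])]
  | 5 => [(1, [lA, lS, lA]), (1, [lS, lA, lS])]
  | 6 => [(1, [lB, lQ, lB]), (1, [lQ, lB, lQ])]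
  | 7 => [(1, [lC, lQ, lC]), (1, [lQ, lC, lQ])]
  | 8 => [(1, [lC, lS, lC]), (-1, [lS, lC, lS])]
  | _ => []

theorem basic_sound (k : ℕ) : evF (basic k) = 0 := by
  match k with
  | 0 =>
    have h := y_tri1 (n := 6) (i := 0) (j := 1) (k := 3) (by decide) (by decide) (by decide)
    simp only [basic, evF, List.map, List.sum_cons, List.sum_nil, ew, List.prod_cons, List.prod_nil,
      mul_one, Int.cast_one, one_smul, negone_smul, add_zero, h]
    abel
  | 1 =>
    have h := y_tri1 (n := 6) (i := 0) (j := 1) (k := 4) (by decide) (by decide) (by decide)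
    simp only [basic, evF, List.map, List.sum_cons, List.sum_nil, ew, List.prod_cons, List.prod_nil,
      mul_one, Int.cast_one, one_smul, negone_smul, add_zero, h]
    abel
  | 2 =>
    have h := cycle_aux (y lQ) (y lC) (y lS) (y lD) (y (0, 5))
      (y_tri1 (n := 6) (i := 0) (j := 1) (k := 5) (by decide) (by decide) (by decide))
      (y_tri2 (n := 6) (i := 0) (j := 2) (k := 5) (by decide) (by decide) (by decide))
      (y_comm _ _ (by decide)) (y_comm _ _ (by decide))
    simp only [basic, evF, List.map, List.sum_cons, List.sum_nil, ew, List.prod_cons, List.prod_nil,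
      mul_one, Int.cast_one, one_smul, negone_smul, add_zero]
    simp only [mul_assoc] at h
    rw [← add_assoc, h]
    abel
  | 3 =>
    have h := star_aux (y lA) (y lS) (y lP) (y (2, 3))
      (by
        rw [eq_sub_iff_add_eq]
        exact (y_tri1 (n := 6) (i := 0) (j := 2) (k := 3) (by decide) (by decide) (by decide)).symm
          |>.trans rfl |> fun e => by rw [← e, add_comm])
      (y_comm _ _ (by decide))
      (y_braid_out (n := 6) (i := 0) (j := 3) (k := 4) (by decide) (by decide) (by decide))
      (y_braid_out (n := 6) (i := 0) (j := 2) (k := 4) (by decide) (by decide) (by decide))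
    simp only [basic, evF, List.map, List.sum_cons, List.sum_nil, ew, List.prod_cons, List.prod_nil,
      mul_one, Int.cast_one, one_smul, negone_smul, add_zero]
    simp only [mul_assoc] at h
    rw [← add_assoc, h]
  | 4 =>
    have h := star_aux (y lB) (y lT) (y lQ) (y (3, 4))
      (by
        rw [eq_sub_iff_add_eq]
        exact (y_tri1 (n := 6) (i := 1) (j := 3) (k := 4) (by decide) (by decide) (by decide)).symm
          |>.trans rfl |> fun e => by rw [← e, add_comm])
      (y_comm _ _ (by decide))
      (y_braid_out (n := 6) (i := 1) (j := 4) (k := 5) (by decide) (by decide) (by decide))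
      (y_braid_out (n := 6) (i := 1) (j := 3) (k := 5) (by decide) (by decide) (by decide))
    simp only [basic, evF, List.map, List.sum_cons, List.sum_nil, ew, List.prod_cons, List.prod_nil,
      mul_one, Int.cast_one, one_smul, negone_smul, add_zero]
    simp only [mul_assoc] at h
    rw [← add_assoc, h]
  | 5 =>
    have h := y_braid_out (n := 6) (i := 0) (j := 3) (k := 2) (by decide) (by decide) (by decide)
    simp only [basic, evF, List.map, List.sum_cons, List.sum_nil, ew, List.prod_cons, List.prod_nil,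
      mul_one, Int.cast_one, one_smul, negone_smul, add_zero]
    simpa only [mul_assoc] using h
  | 6 =>
    have h := y_braid_out (n := 6) (i := 1) (j := 4) (k := 5) (by decide) (by decide) (by decide)
    simp only [basic, evF, List.map, List.sum_cons, List.sum_nil, ew, List.prod_cons, List.prod_nil,
      mul_one, Int.cast_one, one_smul, negone_smul, add_zero]
    simpa only [mul_assoc] using h
  | 7 =>
    have h := y_braid_in (n := 6) (i := 2) (j := 1) (k := 5) (by decide) (by decide) (by decide)
    simp only [basic, evF, List.map, List.sum_cons, List.sum_nil, ew, List.prod_cons, List.prod_nil,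
      mul_one, Int.cast_one, one_smul, negone_smul, add_zero]
    simpa only [mul_assoc] using h
  | 8 =>
    have h := y_braid (n := 6) (i := 0) (j := 2) (k := 5) (by decide) (by decide) (by decide)
    simp only [basic, evF, List.map, List.sum_cons, List.sum_nil, ew, List.prod_cons, List.prod_nil,
      mul_one, Int.cast_one, one_smul, negone_smul, add_zero]
    simp only [mul_assoc] at h
    rw [h, add_neg_cancel]
  | _ + 9 => rfl

/-- The certificate. -/
def cert : List (ℤ × List (Let 6) × ℕ × List (Let 6)) :=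
  [(-1, [lS], 0, [lQ, lC, lB, lT]),
   (1, [lA, lC, lS, lP], 0, [lQ]),
   (1, [lA, lS], 0, [lQ, lB, lT]),
   (1, [lA, lS, lP], 0, [lQ, lB]),
   (-1, [lS, lP], 0, [lQ, lC, lB]),
   (-1, [lC, lS, lP], 0, [lQ, lC]),
   (1, [lP], 0, [lQ, lB, lC, lQ]),
   (1, [], 0, [lQ, lC, lB, lT, lQ]),
   (-1, [lS, lA, lC, lS, lP], 0, []),
   (1, [lC, lP, lA, lS], 1, [lQ]),
   (-1, [lS, lA, lC, lS], 1, [lT]),
   (-1, [lS], 1, [lT, lQ, lC, lB]),
   (1, [], 1, [lT, lQ, lB, lC, lQ]),
   (1, [lA, lS], 1, [lT, lQ, lB]),
   (-1, [lS, lC, lP, lA, lS], 1, []),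
   (1, [lA, lC, lS], 1, [lT, lQ]),
   (-1, [lC, lS], 1, [lT, lQ, lC]),
   (1, [lP, lA, lS], 1, [lQ, lB]),
   (1, [], 2, [lB, lT, lQ, lC]),
   (-1, [lP, lA], 2, [lB, lQ]),
   (1, [lS, lA], 2, [lB, lT]),
   (-1, [lA], 2, [lB, lT, lQ]),
   (1, [lS, lP, lA], 2, [lB]),
   (1, [lC, lS, lP, lA], 2, []),
   (1, [lC], 3, [lD, lQ]),
   (1, [], 3, [lD, lQ, lB]),
   (-1, [lS, lC], 3, [lD]),
   (-1, [lD], 4, [lC, lQ]),
   (1, [lS, lD], 4, [lC]),
   (-1, [lA, lS, lD], 4, []),
   (1, [], 5, [lD, lQ, lB, lT]),
   (-1, [lP, lA, lS, lD], 6, []),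
   (1, [lD, lQ, lB, lT], 7, []),
   (-1, [], 8, [lP, lA, lS, lD])]

/-- The relation of length seven. -/
def relWords : List (ℤ × List (Let 6)) :=
  [(1, [lB, lS, lA, lC, lS, lP, lT]),
   (1, [lS, lC, lP, lA, lB, lS, lP]),
   (1, [lB, lC, lS, lP, lT, lQ, lC]),
   (1, [lB, lS, lP, lT, lQ, lB, lC]),
   (1, [lS, lP, lT, lA, lQ, lB, lC]),
   (1, [lQ, lS, lC, lP, lA, lB, lS]),
   (1, [lS, lA, lC, lS, lP, lT, lA]),
   (1, [lC, lS, lP, lT, lA, lQ, lC]),
   (1, [lC, lQ, lS, lC, lP, lA, lS]),
   (1, [lQ, lB, lS, lA, lC, lS, lT]),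
   (1, [lS, lT, lA, lQ, lB, lC, lT]),
   (1, [lQ, lB, lC, lS, lT, lQ, lC]),
   (-1, [lA, lB, lC, lS, lP, lT, lQ]),
   (-1, [lA, lQ, lB, lC, lS, lT, lQ]),
   (-1, [lT, lA, lQ, lB, lC, lT, lQ]),
   (-1, [lC, lP, lA, lB, lQ, lS, lP]),
   (-1, [lA, lC, lS, lP, lT, lA, lQ]),
   (-1, [lP, lT, lA, lQ, lB, lC, lQ]),
   (-1, [lP, lA, lQ, lB, lC, lQ, lS]),
   (-1, [lB, lP, lT, lQ, lB, lC, lQ]),
   (-1, [lA, lB, lS, lP, lT, lQ, lB]),
   (-1, [lP, lA, lB, lQ, lS, lP, lB]),
   (-1, [lA, lS, lP, lT, lA, lQ, lB]),
   (-1, [lA, lS, lT, lA, lQ, lB, lT])]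

/-- A row of the certificate. -/
def rowC (p : ℤ × List (Let 6) × ℕ × List (Let 6)) : Comb 6 :=
  (basic p.2.2.1).map fun q => (-(p.1 * q.1), p.2.1 ++ q.2 ++ p.2.2.2)

theorem rowC_sound (p : ℤ × List (Let 6) × ℕ × List (Let 6)) : evF (rowC p) = 0 := by
  have h : evF (rowC p) = (-(p.1 : ℚ)) • (ew p.2.1 * evF (basic p.2.2.1) * ew p.2.2.2) := by
    unfold rowC
    generalize basic p.2.2.1 = C
    induction C with
    | nil => simp [evF]
    | cons q C ih =>
      rw [List.map_cons, evF_cons, ih, evF_cons, ew_append, ew_append, mul_add, add_mul, smul_add]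
      congr 1
      rw [mul_smul_comm, smul_mul_assoc, smul_smul, neg_mul, Int.cast_neg, Int.cast_mul]
  rw [h, basic_sound, mul_zero, zero_mul, smul_zero]

theorem rows_sound (L : List (ℤ × List (Let 6) × ℕ × List (Let 6))) :
    evF (L.flatMap rowC) = 0 := by
  induction L with
  | nil => rfl
  | cons p L ih => rw [List.flatMap_cons, evF_append, ih, rowC_sound, add_zero]

theorem cert_check : (normC [lA, lB, lC, lP, lQ, lS, lT, lD] (relWords ++ cert.flatMap rowC)).isEmpty = true := by
  decide +kernel

/-- The relation holds in the Fomin-Kirillov algebra. -/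
theorem relWords_zero : evF relWords = 0 := by
  have h := cert_check
  rw [List.isEmpty_iff] at h
  have h2 := normC_sound [lA, lB, lC, lP, lQ, lS, lT, lD] (relWords ++ cert.flatMap rowC)
  rw [h, evF_nil, evF_append, rows_sound, add_zero] at h2
  exact h2.symm

end Pool.Agent.Lib.MP_349275_al
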