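import Pool.Agent.Lib.MP_349275_al.Fock

/-!
Evaluation of the functionals of `Fock.lean` on all the words in the letters of the theta graph.
-/

set_option autoImplicit false

namespace Pool.Agent.Lib.MP_349275_al

variable {n : ℕ}

/-- Formal combinations of words. -/
abbrev Comb (n : ℕ) : Type := List (ℤ × List (Let n))

/-- Value of a function on a combination. -/
def evC (h : List (Let n) → ℚ) (C : Comb n) : ℚ := (C.map fun p => (p.1 : ℚ) * h p.2).sum

theorem evC_nil (h : List (Let n) → ℚ) : evC h [] = 0 := rfl

theorem evC_cons (h : List (Let n) → ℚ) (p : ℤ × List (Let n)) (C : Comb n) :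
    evC h (p :: C) = (p.1 : ℚ) * h p.2 + evC h C := by simp [evC]

theorem evC_append (h : List (Let n) → ℚ) (C D : Comb n) :
    evC h (C ++ D) = evC h C + evC h D := by simp [evC]

/-- The derivation of a word as a combination. -/
def der : List (Let n) → Fin n → Fin n → Comb n
  | [], _, _ => []
  | (k, l) :: F, i, j =>
    (if i = k ∧ j = l then [((1 : ℤ), F)] else if i = l ∧ j = k then [((-1 : ℤ), F)] else []) ++
      (der F (sw k l i) (sw k l j)).map fun p => (p.1, (k, l) :: p.2)

theorem evC_der (F : List (Let n)) {i j : Fin n} (hij : i ≠ j) (h : List (Let n) → ℚ) :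
    evC h (der F i j) = act i j h F := by
  induction F generalizing i j h with
  | nil => rfl
  | cons f F ih =>
    obtain ⟨k, l⟩ := f
    have e1 : evC h ((der F (sw k l i) (sw k l j)).map fun p => (p.1, (k, l) :: p.2)) =
        evC (tl (k, l) h) (der F (sw k l i) (sw k l j)) := by
      unfold evC
      rw [List.map_map]
      rfl
    rw [der, evC_append, e1, ih (sw_inj hij), act_cons]
    congr 1
    unfold pr
    by_cases c1 : i = k ∧ j = l
    · have c2 : ¬ (i = l ∧ j = k) := by
        rintro ⟨a, b⟩; exact hij (c1.1.trans b.symm)
      rw [if_pos c1, if_pos c1, if_neg c2]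
      simp [evC]
    · by_cases c2 : i = l ∧ j = k
      · rw [if_neg c1, if_pos c2, if_neg c1, if_pos c2]
        simp [evC]
      · rw [if_neg c1, if_neg c2, if_neg c1, if_neg c2]
        simp [evC]

/-- The derivation of a combination. -/
def derC (C : Comb n) (i j : Fin n) : Comb n :=
  C.flatMap fun p => (der p.2 i j).map fun q => (p.1 * q.1, q.2)

theorem evC_derC (C : Comb n) {i j : Fin n} (hij : i ≠ j) (h : List (Let n) → ℚ) :
    evC h (derC C i j) = evC (act i j h) C := by
  induction C with
  | nil => rfl
  | cons p C ih =>
    have e : derC (p :: C) i j =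
      ((der p.2 i j).map fun q => (p.1 * q.1, q.2)) ++ derC C i j := rfl
    rw [e, evC_append, ih, evC_cons, ← evC_der _ hij]
    congr 1
    unfold evC
    rw [List.map_map, ← List.sum_map_mul_left]
    congr 1
    apply List.map_congr_left
    intro q _
    simp only [Function.comp]
    push_cast
    ring

/-- The words of `cls` which begin with `e`, with `e` removed. -/
def tails (e : Let n) : List (List (Let n)) → List (List (Let n))
  | [] => []
  | [] :: L => tails e L
  | (f :: v) :: L => if f = e then v :: tails e L else tails e L

theorem mem_tails (e : Let n) (v : List (Let n)) (L : List (List (Let n))) :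
    v ∈ tails e L ↔ e :: v ∈ L := by
  induction L with
  | nil => simp [tails]
  | cons u L ih =>
    cases u with
    | nil => simp [tails, ih]
    | cons f u =>
      unfold tails
      split_ifs with h
      · subst h; simp [ih]
      · have : ¬ (e :: v = f :: u) := by
          intro h'; rw [List.cons.injEq] at h'; exact h h'.1.symm
        simp [ih, this]

/-- The total coefficient of the empty word. -/
def coeff0 : Comb n → ℤ
  | [] => 0
  | (c, []) :: C => c + coeff0 C
  | (_, _ :: _) :: C => coeff0 C

theorem evC_h0 (C : Comb n) : evC h0 C = (coeff0 C : ℚ) := by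
  induction C with
  | nil => simp [evC, coeff0]
  | cons p C ih =>
    obtain ⟨c, F⟩ := p
    rw [evC_cons, ih]
    cases F with
    | nil => simp [coeff0, h0]
    | cons f F => simp [coeff0, h0]

/-- The check that the functional has the value `eps` on the words of `cls` and `0` on the other
words of length `k` in the letters `gl`. -/
def check (gl : List (Let n)) (eps : ℤ) : ℕ → Comb n → List (List (Let n)) → Bool
  | 0, C, cls => decide (coeff0 C = if [] ∈ cls then eps else 0)
  | k + 1, C, cls => (C.isEmpty && cls.isEmpty) ||
      gl.all fun e => check gl eps k (derC C e.1 e.2) (tails e cls)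

theorem check_sound (gl : List (Let n)) (hgl : ∀ e ∈ gl, e.1 ≠ e.2) (eps : ℤ) (k : ℕ) (C : Comb n)
    (cls : List (List (Let n))) (h : check gl eps k C cls = true) (v : List (Let n))
    (hv : ∀ e ∈ v, e ∈ gl) (hk : v.length = k) :
    evC (wf v) C = if v ∈ cls then (eps : ℚ) else 0 := by
  induction k generalizing C cls v with
  | zero =>
    have hv0 : v = [] := List.eq_nil_of_length_eq_zero hk
    subst hv0
    have h1 : coeff0 C = if [] ∈ cls then eps else 0 := by simpa [check] using h
    show evC h0 C = _
    rw [evC_h0, h1]
    split_ifs <;> simp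
  | succ k ih =>
    cases v with
    | nil => simp at hk
    | cons e v =>
      simp only [check, Bool.or_eq_true, Bool.and_eq_true, List.all_eq_true] at h
      rcases h with ⟨h1, h2⟩ | h
      · rw [List.isEmpty_iff] at h1 h2
        subst h1; subst h2
        simp [evC]
      · have he := h e (hv e (by simp))
        have := ih _ _ he v (fun f hf => hv f (by simp [hf])) (by simpa using hk)
        rw [evC_derC _ (hgl e (hv e (by simp)))] at this
        rw [wf, this]
        simp only [mem_tails]

/-- The functionals vanish on words of other lengths. -/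
theorem actF_zero (F : List (Let n)) (i j : Fin n) (h : List (Let n) → ℚ)
    (hh : ∀ F' : List (Let n), F'.length + 1 = F.length → h F' = 0) : act i j h F = 0 := by
  induction F generalizing i j h with
  | nil => rfl
  | cons f F ih =>
    obtain ⟨k, l⟩ := f
    rw [act_cons, hh F rfl, ih]
    · ring
    · intro F' hF'
      exact hh _ (by simp [← hF'])

theorem wf_length (v F : List (Let n)) (h : v.length ≠ F.length) : wf v F = 0 := by
  induction v generalizing F with
  | nil =>
    cases F with
    | nil => simp at h
    | cons f F => rfl
  | cons e v ih =>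
    apply actF_zero
    intro F' hF'
    apply ih
    intro h'
    apply h
    simp [h', hF']

/-- The set of the nine words of length five. -/
def wordsB : List (List (Let 6)) :=
  [[(0, 2), (1, 3), (0, 3), (1, 5), (1, 4)],
   [(1, 3), (0, 2), (0, 3), (1, 5), (1, 4)],
   [(0, 2), (1, 3), (1, 5), (0, 3), (1, 4)],
   [(1, 3), (0, 2), (1, 5), (0, 3), (1, 4)],
   [(1, 3), (1, 5), (0, 2), (0, 3), (1, 4)],
   [(0, 2), (1, 3), (1, 5), (1, 4), (0, 3)],
   [(1, 3), (0, 2), (1, 5), (1, 4), (0, 3)],
   [(1, 3), (1, 5), (0, 2), (1, 4), (0, 3)],
   [(1, 3), (1, 5), (1, 4), (0, 2), (0, 3)]]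

/-- The nine words followed by `13`. -/
def wordsBt : List (List (Let 6)) := wordsB.map fun v => v ++ [(1, 3)]

/-- The nine words preceded by `03`. -/
def wordsaB : List (List (Let 6)) := wordsB.map fun v => (0, 3) :: v

/-- The nine words of length seven. -/
def wordsC : List (List (Let 6)) := wordsB.map fun v => (0, 3) :: (v ++ [(1, 3)])

theorem check_aB : check thetaEdges 1 6
    [(1, [(0, 3), (0, 2), (1, 3), (1, 5), (0, 3), (1, 4)])] wordsaB = true := by
  decide +kernel

theorem check_Bt : check thetaEdges 1 6
    [(1, [(1, 3), (0, 2), (0, 3), (1, 3), (3, 5), (3, 4)])] wordsBt = true := by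
  decide +kernel

end Pool.Agent.Lib.MP_349275_al
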