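import Mathlib

/-!
Definitions for the ideals of relations of the subalgebras of the Fomin-Kirillov algebras.
-/

set_option autoImplicit false

namespace Pool.Agent.Lib.MP_349275_al

/-- The index set of the generators `x_{ij}`, `i ≠ j`, of the Fomin-Kirillov algebra. -/
abbrev Gen (n : ℕ) : Type := {p : Fin n × Fin n // p.1 ≠ p.2}

/-- The symbol `x_{ij}` in the free associative algebra over `ℚ`. -/
noncomputable def gen {n : ℕ} (i j : Fin n) (h : i ≠ j) : FreeAlgebra ℚ (Gen n) :=
  FreeAlgebra.ι ℚ ⟨(i, j), h⟩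

/-- The defining relations of the Fomin-Kirillov algebra: `x_{ji} = -x_{ij}`, `x_{ij} ^ 2 = 0`,
`x_{ij} x_{kl} = x_{kl} x_{ij}` for distinct `i, j, k, l`, and
`x_{ij} x_{jk} + x_{jk} x_{ki} + x_{ki} x_{ij} = 0` for distinct `i, j, k`. -/
inductive FKRel (n : ℕ) : FreeAlgebra ℚ (Gen n) → FreeAlgebra ℚ (Gen n) → Prop
  | antisymm (i j : Fin n) (h : i ≠ j) : FKRel n (gen j i h.symm) (-gen i j h)
  | square (i j : Fin n) (h : i ≠ j) : FKRel n (gen i j h * gen i j h) 0
  | commute (i j k l : Fin n) (hij : i ≠ j) (hkl : k ≠ l) (hik : i ≠ k) (hil : i ≠ l)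
      (hjk : j ≠ k) (hjl : j ≠ l) :
      FKRel n (gen i j hij * gen k l hkl) (gen k l hkl * gen i j hij)
  | triangle (i j k : Fin n) (hij : i ≠ j) (hjk : j ≠ k) (hki : k ≠ i) :
      FKRel n (gen i j hij * gen j k hjk + gen j k hjk * gen k i hki + gen k i hki * gen i j hij) 0

/-- The Fomin-Kirillov algebra `E_n` over `ℚ`. -/
abbrev FK (n : ℕ) : Type := RingQuot (FKRel n)

/-- The generator `x_{ij}` of `E_n`. -/
noncomputable def x {n : ℕ} (i j : Fin n) (h : i ≠ j) : FK n :=
  RingQuot.mkAlgHom ℚ (FKRel n) (gen i j h)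

variable {n : ℕ}

/-- The edges `{i < j}` of the graph `G`. -/
abbrev Edge (G : SimpleGraph (Fin n)) : Type := {e : Fin n × Fin n // e.1 < e.2 ∧ G.Adj e.1 e.2}

/-- The free associative `ℚ`-algebra `T_G` on the symbols `y_e`, `e` an edge of `G`: the finite
linear combinations of the words in the edges. -/
abbrev T (G : SimpleGraph (Fin n)) : Type := MonoidAlgebra ℚ (FreeMonoid (Edge G))

/-- The homomorphism `T_G → E_n`, `y_{ij} ↦ x_{ij}`; its image is the subalgebra `E_G`. -/
noncomputable def proj (G : SimpleGraph (Fin n)) : T G →ₐ[ℚ] FK n :=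
  MonoidAlgebra.lift ℚ (FK n) (FreeMonoid (Edge G))
    (FreeMonoid.lift fun e => x e.1.1 e.1.2 e.2.1.ne)

/-- The `S_n`-degree of a word: the product of the transpositions of its letters. -/
def wordPerm (G : SimpleGraph (Fin n)) : FreeMonoid (Edge G) →* Equiv.Perm (Fin n) :=
  FreeMonoid.lift fun e => Equiv.swap e.1.1 e.1.2

/-- `r` is homogeneous of length `k` and of `S_n`-degree `w`. -/
def IsHomogeneous (G : SimpleGraph (Fin n)) (k : ℕ) (w : Equiv.Perm (Fin n)) (r : T G) : Prop :=
  ∀ u ∈ r.coeff.support, FreeMonoid.length u = k ∧ wordPerm G u = w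

/-- The ideal `I_G`, the kernel of `T_G → E_n`, as a subspace. -/
noncomputable def relSub (G : SimpleGraph (Fin n)) : Submodule ℚ (T G) :=
  LinearMap.ker (proj G).toLinearMap

/-- The span `T_G^+` of the words of positive length. -/
noncomputable def plusSub (G : SimpleGraph (Fin n)) : Submodule ℚ (T G) :=
  Submodule.span ℚ {y | ∃ u : FreeMonoid (Edge G), 0 < FreeMonoid.length u ∧
    y = MonoidAlgebra.single u 1}

/-- The subspace `T_G^+ I_G + I_G T_G^+`. -/
noncomputable def decompSub (G : SimpleGraph (Fin n)) : Submodule ℚ (T G) :=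
  plusSub G * relSub G ⊔ relSub G * plusSub G

/-- Minimal relations of `E_G`: the elements of `I_G`, homogeneous for both gradings, which are not
in `T_G^+ I_G + I_G T_G^+`. -/
def IsMinimalRelation (G : SimpleGraph (Fin n)) (r : T G) : Prop :=
  proj G r = 0 ∧ (∃ k w, IsHomogeneous G k w r) ∧ r ∉ decompSub G

/-- Minimal generating sets of `I_G`: sets of minimal relations which generate `I_G` as a two-sided
ideal and whose images modulo `T_G^+ I_G + I_G T_G^+` are linearly independent. -/
def IsMinimalGeneratingSet (G : SimpleGraph (Fin n)) (R : Set (T G)) : Prop :=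
  (∀ r ∈ R, IsMinimalRelation G r) ∧
    TwoSidedIdeal.span R = TwoSidedIdeal.ker (proj G) ∧
    LinearIndependent ℚ (fun r : R => (decompSub G).mkQ (r : T G))

/-- The support of `r`: the graph whose edges are the `e` such that `y_e` occurs in a word of `r`
with nonzero coefficient. -/
def supportGraph (G : SimpleGraph (Fin n)) (r : T G) : SimpleGraph (Fin n) :=
  SimpleGraph.fromEdgeSet
    {z | ∃ u ∈ r.coeff.support, ∃ e ∈ FreeMonoid.toList u, z = s(e.1.1, e.1.2)}

/-- The permutation `σ` is an automorphism of the graph `H`: it maps the edge set of `H` onto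
itself. -/
def IsAutomorphism (σ : Equiv.Perm (Fin n)) (H : SimpleGraph (Fin n)) : Prop :=
  Sym2.map σ '' H.edgeSet = H.edgeSet

/-- The seven edges of the graph of the counterexample. -/
def thetaEdges : List (Fin 6 × Fin 6) :=
  [(0, 3), (1, 4), (2, 5), (0, 4), (1, 5), (0, 2), (1, 3)]

/-- The theta graph on six vertices formed by the paths `0-3-1`, `0-4-1`, `0-2-5-1`. -/
def thetaGraph : SimpleGraph (Fin 6) where
  Adj i j := (i, j) ∈ thetaEdges ∨ (j, i) ∈ thetaEdges
  symm := ⟨fun _ _ h => h.symm⟩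
  loopless := ⟨by decide⟩

end Pool.Agent.Lib.MP_349275_al
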