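import Pool.Agent.Lib.MP_349275_al.Functional

/-!
Existence of minimal generating sets of the ideals `I_G`.
-/

set_option autoImplicit false

namespace Pool.Agent.Lib.MP_349275_al

variable {n : ℕ}

/-- The grading monoid. -/
abbrev Gr (n : ℕ) : Type := Multiplicative ℕ × Equiv.Perm (Fin n)

/-- The degree of a generator. -/
def dg (i j : Fin n) : Gr n := (Multiplicative.ofAdd 1, Equiv.swap i j)

theorem dg_comm (i j : Fin n) : dg j i = dg i j := by
  unfold dg
  rw [Equiv.swap_comm]

theorem dg_mul_comm {i j k l : Fin n} (hij : i ≠ j) (hkl : k ≠ l) (hik : i ≠ k) (hil : i ≠ l)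
    (hjk : j ≠ k) (hjl : j ≠ l) : dg i j * dg k l = dg k l * dg i j := by
  unfold dg
  rw [Prod.mk_mul_mk, Prod.mk_mul_mk]
  congr 1
  apply Equiv.Perm.Disjoint.commute
  rw [Equiv.Perm.disjoint_iff_disjoint_support, Equiv.Perm.support_swap hij,
    Equiv.Perm.support_swap hkl]
  simp only [Finset.disjoint_insert_right, Finset.mem_insert, Finset.mem_singleton,
    Finset.disjoint_singleton_right]
  exact ⟨by rintro (h | h); exacts [hik h.symm, hjk h.symm],
    by rintro (h | h); exacts [hil h.symm, hjl h.symm]⟩

theorem dg_tri {i j k : Fin n} (hij : i ≠ j) (hki : k ≠ i) :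
    dg i j * dg j k = dg j k * dg k i := by
  unfold dg
  rw [Prod.mk_mul_mk, Prod.mk_mul_mk]
  congr 1
  have h := Equiv.swap_mul_swap_mul_swap (x := i) (y := j) (z := k) hij hki.symm
  rw [← h, ← mul_assoc, ← mul_assoc, Equiv.swap_mul_self, one_mul]

/-- The coaction on the free algebra. -/
noncomputable def co0 (n : ℕ) : FreeAlgebra ℚ (Gen n) →ₐ[ℚ] MonoidAlgebra (FK n) (Gr n) :=
  FreeAlgebra.lift ℚ fun p => MonoidAlgebra.single (dg p.1.1 p.1.2) (x p.1.1 p.1.2 p.2)

theorem co0_gen {i j : Fin n} (h : i ≠ j) :
    co0 n (gen i j h) = MonoidAlgebra.single (dg i j) (x i j h) := by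
  unfold co0 gen
  rw [FreeAlgebra.lift_ι_apply]

/-- The coaction on the Fomin-Kirillov algebra. -/
noncomputable def co (n : ℕ) : FK n →ₐ[ℚ] MonoidAlgebra (FK n) (Gr n) :=
  RingQuot.liftAlgHom ℚ ⟨co0 n, by
    intro a b hab
    induction hab with
    | antisymm i j h =>
      rw [map_neg, co0_gen, co0_gen, dg_comm, x_swap h, MonoidAlgebra.single_neg]
    | square i j h =>
      rw [map_mul, map_zero, co0_gen, MonoidAlgebra.single_mul_single, x_sq,
        MonoidAlgebra.single_zero]
    | commute i j k l hij hkl hik hil hjk hjl =>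
      rw [map_mul, map_mul, co0_gen, co0_gen, MonoidAlgebra.single_mul_single,
        MonoidAlgebra.single_mul_single, x_comm hij hkl hik hil hjk hjl,
        dg_mul_comm hij hkl hik hil hjk hjl]
    | triangle i j k hij hjk hki =>
      rw [map_add, map_add, map_mul, map_mul, map_mul, map_zero, co0_gen, co0_gen, co0_gen,
        MonoidAlgebra.single_mul_single, MonoidAlgebra.single_mul_single,
        MonoidAlgebra.single_mul_single, dg_tri hij hki, dg_tri hjk hij,
        ← MonoidAlgebra.single_add, ← MonoidAlgebra.single_add, x_tri hij hjk hki,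
        MonoidAlgebra.single_zero]⟩

theorem co_x {i j : Fin n} (h : i ≠ j) : co n (x i j h) = MonoidAlgebra.single (dg i j) (x i j h) := by
  conv_lhs => unfold co x
  rw [RingQuot.liftAlgHom_mkAlgHom_apply, co0_gen]

/-- The bidegree of a word. -/
def bideg {G : SimpleGraph (Fin n)} (u : FreeMonoid (Edge G)) : Gr n :=
  (Multiplicative.ofAdd (FreeMonoid.length u), wordPerm G u)

theorem proj_single_mul (G : SimpleGraph (Fin n)) (e : Edge G) (u : FreeMonoid (Edge G)) :
    proj G (MonoidAlgebra.single (FreeMonoid.of e * u) 1) =
      x e.1.1 e.1.2 e.2.1.ne * proj G (MonoidAlgebra.single u 1) := by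
  unfold proj
  rw [MonoidAlgebra.lift_single, MonoidAlgebra.lift_single, one_smul, one_smul, map_mul,
    FreeMonoid.lift_eval_of]

theorem co_word (G : SimpleGraph (Fin n)) (u : FreeMonoid (Edge G)) :
    co n (proj G (MonoidAlgebra.single u 1)) =
      MonoidAlgebra.single (bideg u) (proj G (MonoidAlgebra.single u 1)) := by
  induction u using FreeMonoid.recOn with
  | one =>
    rw [← MonoidAlgebra.one_def, map_one, map_one]
    rfl
  | of_mul e u ih =>
    rw [proj_single_mul, map_mul, ih, co_x, MonoidAlgebra.single_mul_single]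
    congr 1
    unfold bideg dg
    rw [Prod.mk_mul_mk, map_mul, ← ofAdd_add]
    congr 1
    · rw [FreeMonoid.length_mul, FreeMonoid.length_of]

theorem T_ext {G : SimpleGraph (Fin n)} {r s : T G} (h : ∀ u, r.coeff u = s.coeff u) : r = s :=
  MonoidAlgebra.ext (Finsupp.ext h)

/-- The part of `r` on the words satisfying `p`. -/
noncomputable def filt {G : SimpleGraph (Fin n)} (p : FreeMonoid (Edge G) → Prop)
    [DecidablePred p] : T G →ₗ[ℚ] T G where
  toFun r := MonoidAlgebra.ofCoeff (r.coeff.filter p)
  map_add' r s := by
    rw [MonoidAlgebra.coeff_add, Finsupp.filter_add, MonoidAlgebra.ofCoeff_add]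
  map_smul' c r := by
    rw [MonoidAlgebra.coeff_smul, Finsupp.filter_smul, MonoidAlgebra.ofCoeff_smul]; rfl

theorem filt_coeff {G : SimpleGraph (Fin n)} (p : FreeMonoid (Edge G) → Prop)
    [DecidablePred p] (r : T G) (u : FreeMonoid (Edge G)) :
    (filt p r).coeff u = if p u then r.coeff u else 0 := by
  show (r.coeff.filter p) u = _
  rw [Finsupp.filter_apply]

theorem filt_single {G : SimpleGraph (Fin n)} (p : FreeMonoid (Edge G) → Prop)
    [DecidablePred p] (u : FreeMonoid (Edge G)) (c : ℚ) :
    filt p (MonoidAlgebra.single u c) = if p u then MonoidAlgebra.single u c else 0 := by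
  split_ifs with h
  · show MonoidAlgebra.ofCoeff ((Finsupp.single u c).filter p) = _
    rw [Finsupp.filter_single_of_pos _ h]
    rfl
  · show MonoidAlgebra.ofCoeff ((Finsupp.single u c).filter p) = _
    rw [Finsupp.filter_single_of_neg _ h]
    rfl

theorem co_coeff (G : SimpleGraph (Fin n)) (m : Gr n) (r : T G) :
    (co n (proj G r)).coeff m = proj G (filt (fun u => bideg u = m) r) := by
  refine ext_words (P := fun r => (co n (proj G r)).coeff m)
    (Q := fun r => proj G (filt (fun u => bideg u = m) r)) (by simp) (by simp)
    (fun r s => by rw [map_add, map_add, MonoidAlgebra.coeff_add, Finsupp.add_apply])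
    (fun r s => by rw [map_add, map_add]) (fun u c => ?_) r
  have hc : (MonoidAlgebra.single u c : T G) = c • MonoidAlgebra.single u 1 := by
    rw [MonoidAlgebra.smul_single, smul_eq_mul, mul_one]
  rw [hc, map_smul, map_smul, map_smul, map_smul, co_word, filt_single,
    MonoidAlgebra.coeff_smul, Finsupp.smul_apply, MonoidAlgebra.coeff_single, Finsupp.single_apply]
  split_ifs
  · rfl
  · rw [map_zero]

/-- The bihomogeneous parts of a relation are relations. -/
theorem proj_filt (G : SimpleGraph (Fin n)) (m : Gr n) (r : T G) (hr : proj G r = 0) :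
    proj G (filt (fun u => bideg u = m) r) = 0 := by
  rw [← co_coeff, hr, map_zero]
  rfl

/-- The bihomogeneous relations. -/
def HSet (G : SimpleGraph (Fin n)) : Set (T G) :=
  {r | proj G r = 0 ∧ ∃ k w, IsHomogeneous G k w r}

theorem exists_indep (G : SimpleGraph (Fin n)) : ∃ R : Set (T G), R ⊆ HSet G ∧
    (LinearIndependent ℚ fun r : R => (decompSub G).mkQ (r : T G)) ∧
    ∀ h ∈ HSet G, (decompSub G).mkQ h ∈ Submodule.span ℚ ((decompSub G).mkQ '' R) := by
  obtain ⟨κ, a, ha, hspan, hli⟩ := exists_linearIndependent' ℚ
    (fun r : HSet G => (decompSub G).mkQ (r : T G))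
  refine ⟨Set.range fun i => ((a i : HSet G) : T G), ?_, ?_, ?_⟩
  · rintro _ ⟨i, rfl⟩
    exact (a i).2
  · have hinj : Function.Injective fun i => ((a i : HSet G) : T G) :=
      Subtype.val_injective.comp ha
    have h3 := hli.comp _ (Equiv.ofInjective _ hinj).symm.injective
    have e : (fun r : ↑(Set.range fun i => ((a i : HSet G) : T G)) =>
        (decompSub G).mkQ (r : T G)) = ((fun r : HSet G => (decompSub G).mkQ (r : T G)) ∘ a) ∘
          (Equiv.ofInjective _ hinj).symm := by
      funext r
      obtain ⟨_, i, rfl⟩ := r
      have h2 : (Equiv.ofInjective _ hinj).symm ⟨_, ⟨i, rfl⟩⟩ = i := by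
        rw [Equiv.symm_apply_eq]
        rfl
      simp only [Function.comp]
      rw [h2]
    rw [e]
    exact h3
  · intro h hh
    have h1 : (decompSub G).mkQ h ∈ Submodule.span ℚ
        (Set.range fun r : HSet G => (decompSub G).mkQ (r : T G)) :=
      Submodule.subset_span ⟨⟨h, hh⟩, rfl⟩
    rw [← hspan] at h1
    have e : ((decompSub G).mkQ '' Set.range fun i => ((a i : HSet G) : T G)) =
        Set.range ((fun r : HSet G => (decompSub G).mkQ (r : T G)) ∘ a) := by
      ext z
      constructor
      · rintro ⟨_, ⟨i, rfl⟩, rfl⟩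
        exact ⟨i, rfl⟩
      · rintro ⟨i, rfl⟩
        exact ⟨_, ⟨i, rfl⟩, rfl⟩
    rw [e]
    exact h1

/-- A two-sided ideal as a subspace. -/
def idealSub {G : SimpleGraph (Fin n)} (J : TwoSidedIdeal (T G)) : Submodule ℚ (T G) where
  carrier := {z | z ∈ J}
  add_mem' := fun h1 h2 => J.add_mem h1 h2
  zero_mem' := J.zero_mem
  smul_mem' := fun c z hz => by
    show c • z ∈ J
    rw [Algebra.smul_def]
    exact J.mul_mem_left _ _ hz

/-- The part of length `k`. -/
noncomputable abbrev flen {G : SimpleGraph (Fin n)} (k : ℕ) : T G →ₗ[ℚ] T G :=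
  filt fun u => FreeMonoid.length u = k

theorem flen_single_mul {G : SimpleGraph (Fin n)} (k : ℕ) (u : FreeMonoid (Edge G)) (s : T G) :
    flen k (MonoidAlgebra.single u 1 * s) =
      if FreeMonoid.length u ≤ k then
        MonoidAlgebra.single u 1 * flen (k - FreeMonoid.length u) s else 0 := by
  refine ext_words (P := fun s => flen k (MonoidAlgebra.single u 1 * s))
    (Q := fun s => if FreeMonoid.length u ≤ k then
        MonoidAlgebra.single u 1 * flen (k - FreeMonoid.length u) s else 0) (by simp) (by simp)
    (fun r s => by rw [mul_add, map_add]) (fun r s => ?_) (fun v c => ?_) s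
  · split_ifs
    · rw [map_add, mul_add]
    · rw [add_zero]
  · rw [MonoidAlgebra.single_mul_single, filt_single, filt_single, FreeMonoid.length_mul]
    by_cases h1 : FreeMonoid.length u ≤ k
    · rw [if_pos h1]
      by_cases h2 : FreeMonoid.length v = k - FreeMonoid.length u
      · rw [if_pos h2, if_pos (by omega), MonoidAlgebra.single_mul_single]
      · rw [if_neg h2, if_neg (by omega), mul_zero]
    · rw [if_neg h1, if_neg (by omega)]

theorem flen_mul_single {G : SimpleGraph (Fin n)} (k : ℕ) (u : FreeMonoid (Edge G)) (s : T G) :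
    flen k (s * MonoidAlgebra.single u 1) =
      if FreeMonoid.length u ≤ k then
        flen (k - FreeMonoid.length u) s * MonoidAlgebra.single u 1 else 0 := by
  refine ext_words (P := fun s => flen k (s * MonoidAlgebra.single u 1))
    (Q := fun s => if FreeMonoid.length u ≤ k then
        flen (k - FreeMonoid.length u) s * MonoidAlgebra.single u 1 else 0) (by simp) (by simp)
    (fun r s => by rw [add_mul, map_add]) (fun r s => ?_) (fun v c => ?_) s
  · split_ifs
    · rw [map_add, add_mul]
    · rw [add_zero]
  · rw [MonoidAlgebra.single_mul_single, filt_single, filt_single, FreeMonoid.length_mul]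
    by_cases h1 : FreeMonoid.length u ≤ k
    · rw [if_pos h1]
      by_cases h2 : FreeMonoid.length v = k - FreeMonoid.length u
      · rw [if_pos h2, if_pos (by omega), MonoidAlgebra.single_mul_single]
      · rw [if_neg h2, if_neg (by omega), zero_mul]
    · rw [if_neg h1, if_neg (by omega)]

/-- The part of length `k` of a decomposable relation is generated in lower lengths. -/
theorem flen_decomp {G : SimpleGraph (Fin n)} (J : TwoSidedIdeal (T G)) (k : ℕ)
    (hJ : ∀ j < k, ∀ s : T G, proj G s = 0 → flen j s ∈ J) (z : T G) (hz : z ∈ decompSub G) :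
    flen k z ∈ J := by
  have key : decompSub G ≤ (idealSub J).comap (flen k) := by
    unfold decompSub
    rw [sup_le_iff]
    constructor
    · rw [Submodule.mul_le]
      intro y hy s hs
      have hs' : proj G s = 0 := hs
      unfold plusSub at hy
      induction hy using Submodule.span_induction with
      | mem y hy =>
        obtain ⟨u, hu, rfl⟩ := hy
        show flen k _ ∈ J
        rw [flen_single_mul]
        split_ifs with h
        · exact J.mul_mem_left _ _ (hJ _ (by omega) s hs')
        · exact J.zero_mem
      | zero => rw [zero_mul]; exact Submodule.zero_mem _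
      | add a b _ _ ha hb => rw [add_mul]; exact Submodule.add_mem _ ha hb
      | smul c a _ ha => rw [smul_mul_assoc]; exact Submodule.smul_mem _ _ ha
    · rw [Submodule.mul_le]
      intro s hs y hy
      have hs' : proj G s = 0 := hs
      unfold plusSub at hy
      induction hy using Submodule.span_induction with
      | mem y hy =>
        obtain ⟨u, hu, rfl⟩ := hy
        show flen k _ ∈ J
        rw [flen_mul_single]
        split_ifs with h
        · exact J.mul_mem_right _ _ (hJ _ (by omega) s hs')
        · exact J.zero_mem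
      | zero => rw [mul_zero]; exact Submodule.zero_mem _
      | add a b _ _ ha hb => rw [mul_add]; exact Submodule.add_mem _ ha hb
      | smul c a _ ha => rw [mul_smul_comm]; exact Submodule.smul_mem _ _ ha
  exact key hz

theorem sum_filt {G : SimpleGraph (Fin n)} {ι : Type*} [DecidableEq ι]
    (f : FreeMonoid (Edge G) → ι) (S : Finset ι) (r : T G)
    (h : ∀ u ∈ r.coeff.support, f u ∈ S) : r = ∑ i ∈ S, filt (fun u => f u = i) r := by
  apply T_ext
  intro u
  rw [MonoidAlgebra.coeff_sum, Finsupp.finset_sum_apply]
  simp only [filt_coeff]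
  rw [Finset.sum_ite_eq]
  split_ifs with h1
  · rfl
  · by_contra h2
    exact h1 (h u (Finsupp.mem_support_iff.mpr h2))

theorem filt_filt {G : SimpleGraph (Fin n)} (p q : FreeMonoid (Edge G) → Prop)
    [DecidablePred p] [DecidablePred q] [DecidablePred fun u => p u ∧ q u] (r : T G) :
    filt p (filt q r) = filt (fun u => p u ∧ q u) r := by
  apply T_ext
  intro u
  rw [filt_coeff, filt_coeff, filt_coeff]
  by_cases h1 : p u <;> by_cases h2 : q u <;> simp [h1, h2]

theorem flen_mem {G : SimpleGraph (Fin n)} (R : Set (T G)) (hR : R ⊆ HSet G)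
    (hspan : ∀ h ∈ HSet G, (decompSub G).mkQ h ∈ Submodule.span ℚ ((decompSub G).mkQ '' R))
    (k : ℕ) : ∀ s : T G, proj G s = 0 → flen k s ∈ TwoSidedIdeal.span R := by
  induction k using Nat.strong_induction_on with
  | _ k ih =>
    have hH : ∀ h : T G, proj G h = 0 → ∀ w, IsHomogeneous G k w h →
        h ∈ TwoSidedIdeal.span R := by
      intro h hh w hw
      have h1 := hspan h ⟨hh, k, w, hw⟩
      rw [← Submodule.map_span] at h1
      obtain ⟨z, hz, hzq⟩ := h1
      have h2 : h - z ∈ decompSub G := by
        rw [← Submodule.ker_mkQ (decompSub G), LinearMap.mem_ker, map_sub]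
        have hzq' : (decompSub G).mkQ z = (decompSub G).mkQ h := hzq
        rw [hzq', sub_self]
      have h3 := flen_decomp (TwoSidedIdeal.span R) k ih _ h2
      have h4 : flen k z ∈ TwoSidedIdeal.span R := by
        have : Submodule.span ℚ R ≤ (idealSub (TwoSidedIdeal.span R)).comap (flen k) := by
          rw [Submodule.span_le]
          intro r hr
          obtain ⟨_, k', w', hk'⟩ := hR hr
          show flen k r ∈ TwoSidedIdeal.span R
          by_cases hkk : k' = k
          · have : flen k r = r := by
              apply T_ext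
              intro u
              rw [filt_coeff]
              split_ifs with h5
              · rfl
              · by_contra h6
                exact h5 (hkk ▸ (hk' u (Finsupp.mem_support_iff.mpr (Ne.symm h6))).1)
            rw [this]
            exact TwoSidedIdeal.subset_span hr
          · have : flen k r = 0 := by
              apply T_ext
              intro u
              rw [filt_coeff]
              split_ifs with h5
              · by_contra h6
                exact hkk ((hk' u (Finsupp.mem_support_iff.mpr h6)).1.symm.trans h5)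
              · rfl
            rw [this]
            exact TwoSidedIdeal.zero_mem _
        exact this hz
      have h5 : flen k h = h := by
        apply T_ext
        intro u
        rw [filt_coeff]
        split_ifs with h5
        · rfl
        · by_contra h6
          exact h5 (hw u (Finsupp.mem_support_iff.mpr (Ne.symm h6))).1
      rw [map_sub] at h3
      have h6 := TwoSidedIdeal.add_mem _ h3 h4
      rw [sub_add_cancel, h5] at h6
      exact h6
    intro s hs
    rw [sum_filt (fun u => wordPerm G u) Finset.univ (flen k s) (fun _ _ => Finset.mem_univ _)]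
    apply (idealSub (TwoSidedIdeal.span R)).sum_mem
    intro w _
    apply hH _ _ w
    · intro u hu
      rw [Finsupp.mem_support_iff, filt_coeff, filt_coeff] at hu
      split_ifs at hu with h1 h2
      · exact ⟨h2, h1⟩
      · exact absurd rfl hu
      · exact absurd rfl hu
    · have h1 := proj_filt G ((Multiplicative.ofAdd k, w) : Gr n) s hs
      have h2 : filt (fun u => wordPerm G u = w) (flen k s) =
          filt (fun u => bideg u = ((Multiplicative.ofAdd k, w) : Gr n)) s := by
        apply T_ext
        intro u
        rw [filt_coeff, filt_coeff, filt_coeff]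
        have : bideg u = ((Multiplicative.ofAdd k, w) : Gr n) ↔
            (FreeMonoid.length u = k ∧ wordPerm G u = w) := by
          unfold bideg
          rw [Prod.mk.injEq]
          exact Iff.rfl
        by_cases c1 : wordPerm G u = w <;> by_cases c2 : FreeMonoid.length u = k <;>
          simp [this, c1, c2]
      rw [h2]
      exact h1

/-- Every ideal `I_G` has a minimal generating set. -/
theorem exists_minimalGeneratingSet (G : SimpleGraph (Fin n)) :
    ∃ R : Set (T G), IsMinimalGeneratingSet G R := by
  obtain ⟨R, hR, hli, hspan⟩ := exists_indep G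
  refine ⟨R, ?_, ?_, hli⟩
  · intro r hr
    refine ⟨(hR hr).1, (hR hr).2, ?_⟩
    intro h
    have h1 := hli.ne_zero ⟨r, hr⟩
    apply h1
    rw [← LinearMap.mem_ker, Submodule.ker_mkQ]
    exact h
  · apply le_antisymm
    · rw [TwoSidedIdeal.span_le]
      intro r hr
      rw [SetLike.mem_coe, TwoSidedIdeal.mem_ker]
      exact (hR hr).1
    · intro s hs
      rw [TwoSidedIdeal.mem_ker] at hs
      rw [sum_filt (fun u => FreeMonoid.length u) (s.coeff.support.image fun u => FreeMonoid.length u) s
        (fun u hu => Finset.mem_image_of_mem _ hu)]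
      apply (idealSub (TwoSidedIdeal.span R)).sum_mem
      intro k _
      exact flen_mem R hR hspan k s hs

end Pool.Agent.Lib.MP_349275_al
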