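import Pool.Agent.Lib.MP_349275_al.Defs

/-!
A representation of the Fomin-Kirillov algebra on the functions on the words in the letters `(i, j)`,
by braided derivations, and the functionals it gives.
-/

set_option autoImplicit false

namespace Pool.Agent.Lib.MP_349275_al

variable {n : ℕ}

/-- Letters. -/
abbrev Let (n : ℕ) : Type := Fin n × Fin n

/-- The transposition of `k` and `l`. -/
def sw (k l i : Fin n) : Fin n := if i = k then l else if i = l then k else i

/-- The pairing of the letters. -/
def pr (i j k l : Fin n) : ℚ := (if i = k ∧ j = l then 1 else 0) - (if i = l ∧ j = k then 1 else 0)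

/-- The braided derivation. -/
def actF : List (Let n) → Fin n → Fin n → (List (Let n) → ℚ) → ℚ
  | [], _, _, _ => 0
  | (k, l) :: F, i, j, h => pr i j k l * h F + actF F (sw k l i) (sw k l j) (fun F' => h ((k, l) :: F'))

theorem actF_add (F : List (Let n)) (i j : Fin n) (h1 h2 : List (Let n) → ℚ) :
    actF F i j (h1 + h2) = actF F i j h1 + actF F i j h2 := by
  induction F generalizing i j h1 h2 with
  | nil => simp [actF]
  | cons f F ih =>
    obtain ⟨k, l⟩ := f
    have := ih (sw k l i) (sw k l j) (fun F' => h1 ((k, l) :: F')) (fun F' => h2 ((k, l) :: F'))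
    simp only [actF, Pi.add_apply]
    have e : (fun F' => h1 ((k, l) :: F') + h2 ((k, l) :: F')) =
      (fun F' => h1 ((k, l) :: F')) + (fun F' => h2 ((k, l) :: F')) := rfl
    rw [e, this]
    ring

theorem actF_smul (F : List (Let n)) (i j : Fin n) (c : ℚ) (h1 : List (Let n) → ℚ) :
    actF F i j (c • h1) = c * actF F i j h1 := by
  induction F generalizing i j h1 with
  | nil => simp [actF]
  | cons f F ih =>
    obtain ⟨k, l⟩ := f
    have := ih (sw k l i) (sw k l j) (fun F' => h1 ((k, l) :: F'))
    simp only [actF, Pi.smul_apply, smul_eq_mul]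
    have e : (fun F' => c * h1 ((k, l) :: F')) = c • (fun F' => h1 ((k, l) :: F')) := rfl
    rw [e, this]
    ring

/-- The derivation as a linear map. -/
def act (i j : Fin n) : (List (Let n) → ℚ) →ₗ[ℚ] (List (Let n) → ℚ) where
  toFun h F := actF F i j h
  map_add' h1 h2 := by funext F; exact actF_add F i j h1 h2
  map_smul' c h := by funext F; exact actF_smul F i j c h

/-- Restriction to the words with a given first letter. -/
def tl (f : Let n) (h : List (Let n) → ℚ) : List (Let n) → ℚ := fun F => h (f :: F)

theorem act_cons (i j k l : Fin n) (h : List (Let n) → ℚ) (F : List (Let n)) :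
    act i j h ((k, l) :: F) = pr i j k l * h F + act (sw k l i) (sw k l j) (tl (k, l) h) F := rfl

theorem act_nil (i j : Fin n) (h : List (Let n) → ℚ) : act i j h [] = 0 := rfl

theorem tl_act (i j k l : Fin n) (h : List (Let n) → ℚ) :
    tl (k, l) (act i j h) = pr i j k l • h + act (sw k l i) (sw k l j) (tl (k, l) h) := by
  funext F
  simp [tl, act_cons]

theorem act_act_cons (i j i2 j2 k l : Fin n) (h : List (Let n) → ℚ) (F : List (Let n)) :
    act i j (act i2 j2 h) ((k, l) :: F) = pr i j k l * act i2 j2 h F +
      pr i2 j2 k l * act (sw k l i) (sw k l j) h F +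
      act (sw k l i) (sw k l j) (act (sw k l i2) (sw k l j2) (tl (k, l) h)) F := by
  rw [act_cons, tl_act, map_add, map_smul]
  simp only [Pi.add_apply, Pi.smul_apply, smul_eq_mul]
  ring

theorem pr_swap (i j k l : Fin n) : pr j i k l = - pr i j k l := by
  unfold pr
  have h1 : (j = k ∧ i = l) ↔ (i = l ∧ j = k) := and_comm
  have h2 : (j = l ∧ i = k) ↔ (i = k ∧ j = l) := and_comm
  simp only [h1, h2]
  ring

theorem act_swap (i j : Fin n) (h : List (Let n) → ℚ) (F : List (Let n)) :
    act j i h F = - act i j h F := by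
  induction F generalizing i j h with
  | nil => simp [act_nil]
  | cons f F ih =>
    obtain ⟨k, l⟩ := f
    rw [act_cons, act_cons, ih, pr_swap]
    ring

theorem sw_inj {k l i j : Fin n} (h : i ≠ j) : sw k l i ≠ sw k l j := by
  unfold sw
  split_ifs <;> simp_all
  all_goals (intro h'; simp_all)

theorem sw_left (k l : Fin n) : sw k l k = l := by simp [sw]

theorem sw_right (k l : Fin n) : sw k l l = k := by
  unfold sw; split_ifs with h
  · exact h
  · rfl
  · simp_all

theorem sw_other {k l i : Fin n} (h1 : i ≠ k) (h2 : i ≠ l) : sw k l i = i := by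
  simp [sw, h1, h2]

/-- The pairing of `(i, j)` with `(k, l)` is zero or the two letters agree up to order. -/
theorem pr_cases {i j : Fin n} (h : i ≠ j) (k l : Fin n) :
    pr i j k l = 0 ∨ (k = i ∧ l = j) ∨ (k = j ∧ l = i) := by
  unfold pr
  by_cases h1 : i = k ∧ j = l
  · exact Or.inr (Or.inl ⟨h1.1.symm, h1.2.symm⟩)
  · by_cases h2 : i = l ∧ j = k
    · exact Or.inr (Or.inr ⟨h2.2.symm, h2.1.symm⟩)
    · left; simp [h1, h2]

theorem act_sq {i j : Fin n} (hij : i ≠ j) (h : List (Let n) → ℚ) (F : List (Let n)) :
    act i j (act i j h) F = 0 := by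
  induction F generalizing i j h with
  | nil => rfl
  | cons f F ih =>
    obtain ⟨k, l⟩ := f
    rw [act_act_cons, ih (sw_inj hij)]
    rcases pr_cases hij k l with h0 | ⟨rfl, rfl⟩ | ⟨rfl, rfl⟩
    · rw [h0]; ring
    · rw [sw_left, sw_right, act_swap]; ring
    · rw [sw_left, sw_right, act_swap]; ring

theorem act_comm {i j a b : Fin n} (hij : i ≠ j) (hab : a ≠ b) (h1 : i ≠ a) (h2 : i ≠ b)
    (h3 : j ≠ a) (h4 : j ≠ b) (h : List (Let n) → ℚ) (F : List (Let n)) :
    act i j (act a b h) F = act a b (act i j h) F := by
  induction F generalizing i j a b h with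
  | nil => rfl
  | cons f F ih =>
    obtain ⟨k, l⟩ := f
    rw [act_act_cons, act_act_cons,
      ih (sw_inj hij) (sw_inj hab) (sw_inj h1) (sw_inj h2) (sw_inj h3) (sw_inj h4)]
    have A : pr i j k l * act (sw k l a) (sw k l b) h F = pr i j k l * act a b h F := by
      rcases pr_cases hij k l with h0 | ⟨rfl, rfl⟩ | ⟨rfl, rfl⟩
      · rw [h0]; ring
      · rw [sw_other h1.symm h3.symm, sw_other h2.symm h4.symm]
      · rw [sw_other h3.symm h1.symm, sw_other h4.symm h2.symm]
    have B : pr a b k l * act (sw k l i) (sw k l j) h F = pr a b k l * act i j h F := by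
      rcases pr_cases hab k l with h0 | ⟨rfl, rfl⟩ | ⟨rfl, rfl⟩
      · rw [h0]; ring
      · rw [sw_other h1 h2, sw_other h3 h4]
      · rw [sw_other h2 h1, sw_other h4 h3]
    linear_combination B - A

theorem act_tri {i j k : Fin n} (hij : i ≠ j) (hjk : j ≠ k) (hki : k ≠ i)
    (h : List (Let n) → ℚ) (F : List (Let n)) :
    act i j (act j k h) F + act j k (act k i h) F + act k i (act i j h) F = 0 := by
  induction F generalizing i j k h with
  | nil => simp [act_nil]
  | cons f F ih =>
    obtain ⟨c, d⟩ := f
    have IH := ih (sw_inj (k := c) (l := d) hij) (sw_inj (k := c) (l := d) hjk)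
      (sw_inj (k := c) (l := d) hki) (tl (c, d) h)
    rw [act_act_cons, act_act_cons, act_act_cons]
    have A : pr i j c d * act (sw c d k) (sw c d i) h F = - pr i j c d * act j k h F := by
      rcases pr_cases hij c d with h0 | ⟨rfl, rfl⟩ | ⟨rfl, rfl⟩
      · rw [h0]; ring
      · rw [sw_other hki hjk.symm, sw_left, act_swap]; ring
      · rw [sw_other hjk.symm hki, sw_right, act_swap]; ring
    have B : pr j k c d * act (sw c d i) (sw c d j) h F = - pr j k c d * act k i h F := by
      rcases pr_cases hjk c d with h0 | ⟨rfl, rfl⟩ | ⟨rfl, rfl⟩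
      · rw [h0]; ring
      · rw [sw_other hij hki.symm, sw_left, act_swap]; ring
      · rw [sw_other hki.symm hij, sw_right, act_swap]; ring
    have C : pr k i c d * act (sw c d j) (sw c d k) h F = - pr k i c d * act i j h F := by
      rcases pr_cases hki c d with h0 | ⟨rfl, rfl⟩ | ⟨rfl, rfl⟩
      · rw [h0]; ring
      · rw [sw_other hjk hij.symm, sw_left, act_swap]; ring
      · rw [sw_other hij.symm hjk, sw_right, act_swap]; ring
    linear_combination IH + A + B + C

/-- The representation on the free algebra. -/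
noncomputable def rep0 (n : ℕ) : FreeAlgebra ℚ (Gen n) →ₐ[ℚ] Module.End ℚ (List (Let n) → ℚ) :=
  FreeAlgebra.lift ℚ fun p => act p.1.1 p.1.2

theorem rep0_gen {i j : Fin n} (h : i ≠ j) : rep0 n (gen i j h) = act i j := by
  unfold rep0 gen
  rw [FreeAlgebra.lift_ι_apply]

/-- The representation of the Fomin-Kirillov algebra. -/
noncomputable def rep (n : ℕ) : FK n →ₐ[ℚ] Module.End ℚ (List (Let n) → ℚ) :=
  RingQuot.liftAlgHom ℚ ⟨rep0 n, by
    intro a b hab
    induction hab with
    | antisymm i j h =>
      rw [map_neg, rep0_gen, rep0_gen]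
      refine LinearMap.ext fun g => funext fun F => ?_
      exact act_swap i j g F
    | square i j h =>
      rw [map_mul, map_zero, rep0_gen]
      refine LinearMap.ext fun g => funext fun F => ?_
      exact act_sq h g F
    | commute i j k l hij hkl hik hil hjk hjl =>
      rw [map_mul, map_mul, rep0_gen, rep0_gen]
      refine LinearMap.ext fun g => funext fun F => ?_
      exact act_comm hij hkl hik hil hjk hjl g F
    | triangle i j k hij hjk hki =>
      rw [map_add, map_add, map_mul, map_mul, map_mul, map_zero, rep0_gen, rep0_gen, rep0_gen]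
      refine LinearMap.ext fun g => funext fun F => ?_
      exact act_tri hij hjk hki g F⟩

theorem rep_x {i j : Fin n} (h : i ≠ j) : rep n (x i j h) = act i j := by
  unfold rep x
  rw [RingQuot.liftAlgHom_mkAlgHom_apply, rep0_gen]

/-- The indicator function of the empty word. -/
def h0 : List (Let n) → ℚ
  | [] => 1
  | _ :: _ => 0

/-- The function on words attached to a word. -/
def wf : List (Let n) → (List (Let n) → ℚ)
  | [] => h0
  | e :: v => act e.1 e.2 (wf v)

end Pool.Agent.Lib.MP_349275_al
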