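import Pool.Agent.Lib.MP_349275_al.Cert

/-!
The functional which detects the relation of length seven.
-/

set_option autoImplicit false

namespace Pool.Agent.Lib.MP_349275_al

variable {n : ℕ}

/-- The linear functional on `T_G` with given values on the words. -/
noncomputable def pairL (G : SimpleGraph (Fin n)) (f : FreeMonoid (Edge G) → ℚ) : T G →ₗ[ℚ] ℚ where
  toFun r := Finsupp.linearCombination ℚ f r.coeff
  map_add' r s := by rw [MonoidAlgebra.coeff_add, map_add]
  map_smul' c r := by rw [MonoidAlgebra.coeff_smul, map_smul]; rfl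

theorem pairL_single (G : SimpleGraph (Fin n)) (f : FreeMonoid (Edge G) → ℚ)
    (u : FreeMonoid (Edge G)) (c : ℚ) : pairL G f (MonoidAlgebra.single u c) = c * f u := by
  show Finsupp.linearCombination ℚ f (Finsupp.single u c) = _
  rw [Finsupp.linearCombination_single, smul_eq_mul]

/-- Two additive maps which agree on the multiples of the words are equal. -/
theorem ext_words {G : SimpleGraph (Fin n)} {M : Type*} [AddCommMonoid M] {P Q : T G → M}
    (hP0 : P 0 = 0) (hQ0 : Q 0 = 0) (hP : ∀ r s, P (r + s) = P r + P s)
    (hQ : ∀ r s, Q (r + s) = Q r + Q s)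
    (h : ∀ u c, P (MonoidAlgebra.single u c) = Q (MonoidAlgebra.single u c)) (r : T G) :
    P r = Q r := by
  induction r using MonoidAlgebra.induction_linear with
  | zero => rw [hP0, hQ0]
  | add r s hr hs => rw [hP, hQ, hr, hs]
  | single u c => exact h u c

theorem pairL_left (G : SimpleGraph (Fin n)) (f : FreeMonoid (Edge G) → ℚ)
    (v : FreeMonoid (Edge G)) (r : T G) :
    pairL G f (MonoidAlgebra.single v 1 * r) = pairL G (fun u => f (v * u)) r := by
  refine ext_words (P := fun r => pairL G f (MonoidAlgebra.single v 1 * r))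
    (Q := fun r => pairL G (fun u => f (v * u)) r) (by simp) (by simp)
    (fun r s => by rw [mul_add, map_add]) (fun r s => by rw [map_add]) (fun u c => ?_) r
  rw [MonoidAlgebra.single_mul_single, pairL_single, pairL_single, one_mul]

theorem pairL_right (G : SimpleGraph (Fin n)) (f : FreeMonoid (Edge G) → ℚ)
    (v : FreeMonoid (Edge G)) (r : T G) :
    pairL G f (r * MonoidAlgebra.single v 1) = pairL G (fun u => f (u * v)) r := by
  refine ext_words (P := fun r => pairL G f (r * MonoidAlgebra.single v 1))
    (Q := fun r => pairL G (fun u => f (u * v)) r) (by simp) (by simp)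
    (fun r s => by rw [add_mul, map_add]) (fun r s => by rw [map_add]) (fun u c => ?_) r
  rw [MonoidAlgebra.single_mul_single, pairL_single, pairL_single, mul_one]

/-- The letters of a word. -/
def wl {G : SimpleGraph (Fin n)} (u : FreeMonoid (Edge G)) : List (Let n) :=
  (FreeMonoid.toList u).map Subtype.val

theorem wl_one {G : SimpleGraph (Fin n)} : wl (1 : FreeMonoid (Edge G)) = [] := rfl

theorem wl_mul {G : SimpleGraph (Fin n)} (u v : FreeMonoid (Edge G)) :
    wl (u * v) = wl u ++ wl v := by
  unfold wl
  rw [FreeMonoid.toList_mul, List.map_append]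

theorem wl_of {G : SimpleGraph (Fin n)} (e : Edge G) : wl (FreeMonoid.of e) = [e.1] := rfl

theorem wl_length {G : SimpleGraph (Fin n)} (u : FreeMonoid (Edge G)) :
    (wl u).length = FreeMonoid.length u := by
  unfold wl
  rw [List.length_map]
  rfl

theorem mem_wl {G : SimpleGraph (Fin n)} {u : FreeMonoid (Edge G)} {e : Let n} (h : e ∈ wl u) :
    e.1 < e.2 ∧ G.Adj e.1 e.2 := by
  unfold wl at h
  rw [List.mem_map] at h
  obtain ⟨f, _, rfl⟩ := h
  exact f.2

theorem proj_single (G : SimpleGraph (Fin 6)) (u : FreeMonoid (Edge G)) (c : ℚ) :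
    proj G (MonoidAlgebra.single u c) = c • ew (wl u) := by
  unfold proj
  rw [MonoidAlgebra.lift_single]
  congr 1
  rw [FreeMonoid.lift_apply]
  unfold ew wl
  rw [List.map_map]
  congr 1
  apply List.map_congr_left
  intro e _
  simp only [Function.comp, y]
  rw [dif_pos e.2.1.ne]

theorem rep_ew (v : List (Let 6)) (hv : ∀ e ∈ v, e.1 ≠ e.2) : rep 6 (ew v) h0 = wf v := by
  induction v with
  | nil => rw [ew_nil, map_one]; rfl
  | cons e v ih =>
    rw [ew_cons, map_mul, Module.End.mul_apply, ih (fun f hf => hv f (by simp [hf]))]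
    unfold y
    rw [dif_pos (hv e (by simp)), rep_x]
    rfl

/-- The functionals given by the representation vanish on the relations. -/
theorem pairL_wf (G : SimpleGraph (Fin 6)) (F : List (Let 6)) (s : T G) (hs : proj G s = 0) :
    pairL G (fun u => wf (wl u) F) s = 0 := by
  have h : pairL G (fun u => wf (wl u) F) s = rep 6 (proj G s) h0 F := by
    refine ext_words (P := fun s => pairL G (fun u => wf (wl u) F) s)
      (Q := fun s => rep 6 (proj G s) h0 F) (by simp) (by simp)
      (fun r s => by rw [map_add])
      (fun r s => by rw [map_add, map_add, LinearMap.add_apply, Pi.add_apply]) (fun u c => ?_) s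
    rw [pairL_single, proj_single, map_smul, LinearMap.smul_apply, Pi.smul_apply, smul_eq_mul,
      rep_ew _ (fun e he => (mem_wl he).1.ne)]
  rw [h, hs]
  simp

theorem edge_mem {e : Let 6} (h : e.1 < e.2 ∧ thetaGraph.Adj e.1 e.2) : e ∈ thetaEdges := by
  revert h
  revert e
  unfold thetaGraph
  decide

/-- The functional of a checked list of words vanishes on the relations. -/
theorem pairL_checked (F : List (Let 6)) (cls : List (List (Let 6)))
    (hF : F.length = 6) (hcls : ∀ v ∈ cls, v.length = 6)
    (hc : check thetaEdges 1 6 [(1, F)] cls = true) (s : T thetaGraph)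
    (hs : proj thetaGraph s = 0) :
    pairL thetaGraph (fun u => if wl u ∈ cls then 1 else 0) s = 0 := by
  have h : (fun u : FreeMonoid (Edge thetaGraph) => if wl u ∈ cls then (1 : ℚ) else 0) =
      fun u => wf (wl u) F := by
    funext u
    by_cases hk : (wl u).length = 6
    · have := check_sound thetaEdges (by decide) 1 6 [(1, F)] cls hc (wl u)
        (fun e he => edge_mem (mem_wl he)) hk
      rw [evC_cons, evC_nil] at this
      simp only [Int.cast_one, one_mul, add_zero] at this
      exact this.symm
    · rw [wf_length _ _ (by rw [hF]; exact hk), if_neg]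
      intro h
      exact hk (hcls _ h)
  rw [h]
  exact pairL_wf _ F s hs

/-- The functional: the sum of the coefficients of the nine words of length seven. -/
noncomputable def phi : T thetaGraph →ₗ[ℚ] ℚ :=
  pairL thetaGraph fun u => if wl u ∈ wordsC then 1 else 0

theorem mem_wordsC_left (e : Let 6) (v : List (Let 6)) :
    e :: v ∈ wordsC ↔ e = (0, 3) ∧ v ∈ wordsBt := by
  simp only [wordsC, wordsBt, List.mem_map, List.cons.injEq]
  constructor
  · rintro ⟨a, ha, h1, h2⟩
    exact ⟨h1.symm, a, ha, h2⟩
  · rintro ⟨h1, a, ha, h2⟩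
    exact ⟨a, ha, h1.symm, h2⟩

theorem mem_wordsC_right (e : Let 6) (v : List (Let 6)) :
    v ++ [e] ∈ wordsC ↔ e = (1, 3) ∧ v ∈ wordsaB := by
  simp only [wordsC, wordsaB, List.mem_map]
  constructor
  · rintro ⟨a, ha, h⟩
    have h' : (0, 3) :: a ++ [(1, 3)] = v ++ [e] := by rw [← h]; rfl
    have h2 := List.append_inj' h' rfl
    rw [List.cons.injEq] at h2
    exact ⟨h2.2.1.symm, a, ha, h2.1⟩
  · rintro ⟨h1, a, ha, h2⟩
    exact ⟨a, ha, by rw [← h2, h1]; rfl⟩

theorem phi_of_mul (e : Edge thetaGraph) (s : T thetaGraph) (hs : proj thetaGraph s = 0) :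
    phi (MonoidAlgebra.single (FreeMonoid.of e) 1 * s) = 0 := by
  unfold phi
  rw [pairL_left]
  by_cases he : e.1 = (0, 3)
  · have : (fun u : FreeMonoid (Edge thetaGraph) =>
        if wl (FreeMonoid.of e * u) ∈ wordsC then (1 : ℚ) else 0) =
        fun u => if wl u ∈ wordsBt then 1 else 0 := by
      funext u
      have h1 : wl (FreeMonoid.of e * u) ∈ wordsC ↔ wl u ∈ wordsBt := by
        rw [wl_mul, wl_of, List.singleton_append, mem_wordsC_left]
        simp [he]
      simp only [h1]
    rw [this]
    exact pairL_checked _ _ (by rfl) (by decide) check_Bt s hs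
  · have : (fun u : FreeMonoid (Edge thetaGraph) =>
        if wl (FreeMonoid.of e * u) ∈ wordsC then (1 : ℚ) else 0) = fun u => 0 := by
      funext u
      rw [if_neg]
      rw [wl_mul, wl_of, List.singleton_append, mem_wordsC_left]
      exact fun h => he h.1
    rw [this]
    exact ext_words (P := fun s => pairL thetaGraph (fun _ => 0) s) (Q := fun _ => 0) (by simp) rfl
      (fun r s => by rw [map_add]) (fun _ _ => by simp)
      (fun u c => by rw [pairL_single, mul_zero]) s

theorem phi_mul_of (e : Edge thetaGraph) (s : T thetaGraph) (hs : proj thetaGraph s = 0) :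
    phi (s * MonoidAlgebra.single (FreeMonoid.of e) 1) = 0 := by
  unfold phi
  rw [pairL_right]
  by_cases he : e.1 = (1, 3)
  · have : (fun u : FreeMonoid (Edge thetaGraph) =>
        if wl (u * FreeMonoid.of e) ∈ wordsC then (1 : ℚ) else 0) =
        fun u => if wl u ∈ wordsaB then 1 else 0 := by
      funext u
      have h1 : wl (u * FreeMonoid.of e) ∈ wordsC ↔ wl u ∈ wordsaB := by
        rw [wl_mul, wl_of, mem_wordsC_right]
        simp [he]
      simp only [h1]
    rw [this]
    exact pairL_checked _ _ (by rfl) (by decide) check_aB s hs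
  · have : (fun u : FreeMonoid (Edge thetaGraph) =>
        if wl (u * FreeMonoid.of e) ∈ wordsC then (1 : ℚ) else 0) = fun u => 0 := by
      funext u
      rw [if_neg]
      rw [wl_mul, wl_of, mem_wordsC_right]
      exact fun h => he h.1
    rw [this]
    exact ext_words (P := fun s => pairL thetaGraph (fun _ => 0) s) (Q := fun _ => 0) (by simp) rfl
      (fun r s => by rw [map_add]) (fun _ _ => by simp)
      (fun u c => by rw [pairL_single, mul_zero]) s

/-- The functional vanishes on `a r b` for the relations `r` on which it vanishes. -/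
theorem phi_mul_mul (r : T thetaGraph) (hr : proj thetaGraph r = 0) (h0 : phi r = 0)
    (a b : T thetaGraph) : phi (a * r * b) = 0 := by
  have hb : ∀ b : T thetaGraph, phi (r * b) = 0 := by
    intro b
    refine ext_words (P := fun b => phi (r * b)) (Q := fun _ => 0) (by simp) rfl
      (fun r s => by rw [mul_add, map_add]) (fun _ _ => by simp) (fun u c => ?_) b
    have hc : (MonoidAlgebra.single u c : T thetaGraph) = c • MonoidAlgebra.single u 1 := by
      rw [MonoidAlgebra.smul_single, smul_eq_mul, mul_one]
    show phi (r * MonoidAlgebra.single u c) = 0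
    rw [hc, mul_smul_comm, map_smul]
    rcases List.eq_nil_or_concat (FreeMonoid.toList u) with h | ⟨v, e, h⟩
    · have hu : u = 1 := h
      rw [hu, ← MonoidAlgebra.one_def, mul_one, h0, smul_zero]
    · have hu : u = FreeMonoid.ofList v * FreeMonoid.of e := by
        apply FreeMonoid.toList.injective
        rw [h]
        simp
      have h2 : (MonoidAlgebra.single u 1 : T thetaGraph) =
          MonoidAlgebra.single (FreeMonoid.ofList v) 1 * MonoidAlgebra.single (FreeMonoid.of e) 1 := by
        rw [MonoidAlgebra.single_mul_single, hu, one_mul]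
      rw [h2, ← mul_assoc, phi_mul_of, smul_zero]
      rw [map_mul, hr, zero_mul]
  refine ext_words (P := fun a => phi (a * r * b)) (Q := fun _ => 0) (by simp) rfl
      (fun r s => by rw [add_mul, add_mul, map_add]) (fun _ _ => by simp) (fun u c => ?_) a
  have hc : (MonoidAlgebra.single u c : T thetaGraph) = c • MonoidAlgebra.single u 1 := by
    rw [MonoidAlgebra.smul_single, smul_eq_mul, mul_one]
  show phi (MonoidAlgebra.single u c * r * b) = 0
  rw [hc, smul_mul_assoc, smul_mul_assoc, map_smul]
  cases hu : FreeMonoid.toList u with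
  | nil =>
    have hu1 : u = 1 := hu
    rw [hu1, ← MonoidAlgebra.one_def, one_mul, hb, smul_zero]
  | cons e v =>
    have hu1 : u = FreeMonoid.of e * FreeMonoid.ofList v := by
      apply FreeMonoid.toList.injective
      rw [hu]
      simp
    have h2 : (MonoidAlgebra.single u 1 : T thetaGraph) =
        MonoidAlgebra.single (FreeMonoid.of e) 1 * MonoidAlgebra.single (FreeMonoid.ofList v) 1 := by
      rw [MonoidAlgebra.single_mul_single, hu1, one_mul]
    rw [h2, mul_assoc, mul_assoc, phi_of_mul, smul_zero]
    rw [map_mul, map_mul, hr, zero_mul, mul_zero]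

/-- An edge of the theta graph from a letter. -/
def toE (e : Let 6) : Edge thetaGraph :=
  if h : e.1 < e.2 ∧ e ∈ thetaEdges then ⟨e, h.1, Or.inl h.2⟩ else
    ⟨(0, 3), by decide, Or.inl (by decide)⟩

/-- A word from a list of letters. -/
def toW (v : List (Let 6)) : FreeMonoid (Edge thetaGraph) := FreeMonoid.ofList (v.map toE)

theorem wl_toW (v : List (Let 6)) (h : ∀ e ∈ v, e.1 < e.2 ∧ e ∈ thetaEdges) : wl (toW v) = v := by
  unfold wl toW
  rw [FreeMonoid.toList_ofList, List.map_map]
  conv_rhs => rw [← List.map_id v]
  apply List.map_congr_left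
  intro e he
  simp only [Function.comp, toE, dif_pos (h e he), id]

/-- The relation of length seven. -/
noncomputable def rel7 : T thetaGraph :=
  (relWords.map fun p => MonoidAlgebra.single (toW p.2) (p.1 : ℚ)).sum

theorem relWords_edges : ∀ p ∈ relWords, ∀ e ∈ p.2, e.1 < e.2 ∧ e ∈ thetaEdges := by
  decide +kernel

theorem proj_rel7 : proj thetaGraph rel7 = 0 := by
  unfold rel7
  rw [map_list_sum, List.map_map]
  rw [← relWords_zero]
  unfold evF
  congr 1
  apply List.map_congr_left
  intro p hp
  simp only [Function.comp]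
  rw [proj_single, wl_toW _ (relWords_edges p hp)]

theorem phi_rel7 : phi rel7 = -1 := by
  unfold rel7
  rw [map_list_sum, List.map_map]
  have h : (relWords.map (phi ∘ fun p => MonoidAlgebra.single (toW p.2) (p.1 : ℚ))) =
      (relWords.map fun p => ((if p.2 ∈ wordsC then p.1 else 0 : ℤ) : ℚ)) := by
    apply List.map_congr_left
    intro p hp
    simp only [Function.comp]
    unfold phi
    rw [pairL_single, wl_toW _ (relWords_edges p hp)]
    split_ifs <;> simp
  rw [h]
  have h2 : (relWords.map fun p => (if p.2 ∈ wordsC then p.1 else 0 : ℤ)).sum = -1 := by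
    decide +kernel
  have h3 : (relWords.map fun p => ((if p.2 ∈ wordsC then p.1 else 0 : ℤ) : ℚ)).sum =
      (((relWords.map fun p => (if p.2 ∈ wordsC then p.1 else 0 : ℤ)).sum : ℤ) : ℚ) := by
    rw [Int.cast_list_sum, List.map_map]
    rfl
  rw [h3, h2]
  norm_num

end Pool.Agent.Lib.MP_349275_al
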