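import Pool.Agent.Lib.MP_349275_al.Functional

/-!
Every homogeneous generating set of the ideal of relations of the theta graph has a bad element.
-/

set_option autoImplicit false

namespace Pool.Agent.Lib.MP_349275_al

theorem mem_span_phi (R : Set (T thetaGraph)) (hR : ∀ r ∈ R, proj thetaGraph r = 0)
    (h0 : ∀ r ∈ R, phi r = 0) (z : T thetaGraph) (hz : z ∈ TwoSidedIdeal.span R) :
    ∀ a b : T thetaGraph, phi (a * z * b) = 0 := by
  induction hz using TwoSidedIdeal.span_induction with
  | mem r hr => exact phi_mul_mul r (hR r hr) (h0 r hr)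
  | zero => intro a b; simp
  | add s t _ _ hs ht => intro a b; rw [mul_add, add_mul, map_add, hs, ht, add_zero]
  | neg s _ hs => intro a b; rw [mul_neg, neg_mul, map_neg, hs, neg_zero]
  | left_absorb c s _ hs => intro a b; rw [← mul_assoc]; exact hs (a * c) b
  | right_absorb c s _ hs =>
    intro a b
    have : a * (s * c) * b = a * s * (c * b) := by simp only [mul_assoc]
    rw [this]
    exact hs a (c * b)

theorem exists_phi_ne (R : Set (T thetaGraph)) (hR : ∀ r ∈ R, proj thetaGraph r = 0)
    (hgen : TwoSidedIdeal.span R = TwoSidedIdeal.ker (proj thetaGraph)) :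
    ∃ r ∈ R, phi r ≠ 0 := by
  by_contra h
  push Not at h
  have h1 : rel7 ∈ TwoSidedIdeal.span R := by
    rw [hgen, TwoSidedIdeal.mem_ker]
    exact proj_rel7
  have h2 := mem_span_phi R hR h rel7 h1 1 1
  rw [one_mul, mul_one, phi_rel7] at h2
  norm_num at h2

theorem exists_word (r : T thetaGraph) (h : phi r ≠ 0) :
    ∃ u ∈ r.coeff.support, wl u ∈ wordsC := by
  by_contra h1
  push Not at h1
  apply h
  show Finsupp.linearCombination ℚ _ r.coeff = 0
  rw [Finsupp.linearCombination_apply, Finsupp.sum]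
  apply Finset.sum_eq_zero
  intro u hu
  rw [if_neg (h1 u hu), smul_zero]

/-- The product of the transpositions of a list of letters. -/
def permL (v : List (Let 6)) : Equiv.Perm (Fin 6) := (v.map fun e => Equiv.swap e.1 e.2).prod

theorem wordPerm_eq (u : FreeMonoid (Edge thetaGraph)) : wordPerm thetaGraph u = permL (wl u) := by
  unfold wordPerm permL wl
  rw [FreeMonoid.lift_apply, List.map_map]
  rfl

theorem wordsC_props : ∀ v ∈ wordsC, v.length = 7 ∧ permL v = finRotate 6 ∧
    ((1, 3) : Let 6) ∈ v := by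
  decide +kernel

theorem bad_element (r : T thetaGraph) (hr : ∃ k w, IsHomogeneous thetaGraph k w r)
    (h : phi r ≠ 0) :
    IsHomogeneous thetaGraph 7 (finRotate 6) r ∧
      ¬ IsAutomorphism (finRotate 6) (supportGraph thetaGraph r) := by
  obtain ⟨u, hu, hC⟩ := exists_word r h
  obtain ⟨hlen, hperm, hmem⟩ := wordsC_props _ hC
  constructor
  · obtain ⟨k, w, hkw⟩ := hr
    obtain ⟨h1, h2⟩ := hkw u hu
    have hk : k = 7 := by rw [← h1, ← wl_length, hlen]
    have hw : w = finRotate 6 := by rw [← h2, wordPerm_eq, hperm]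
    subst hk
    rw [← hw]
    exact hkw
  · intro haut
    unfold IsAutomorphism at haut
    have h1 : s((1 : Fin 6), (3 : Fin 6)) ∈ (supportGraph thetaGraph r).edgeSet := by
      unfold supportGraph
      rw [SimpleGraph.edgeSet_fromEdgeSet]
      unfold wl at hmem
      rw [List.mem_map] at hmem
      obtain ⟨e, he, he2⟩ := hmem
      refine ⟨⟨u, hu, e, he, ?_⟩, ?_⟩
      · rw [he2]
      · simp
    have h2 : Sym2.map (finRotate 6) s((1 : Fin 6), (3 : Fin 6)) ∈
        (supportGraph thetaGraph r).edgeSet := by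
      rw [← haut]
      exact ⟨_, h1, rfl⟩
    have h3 : Sym2.map (finRotate 6) s((1 : Fin 6), (3 : Fin 6)) = s((2 : Fin 6), (4 : Fin 6)) := by
      rw [Sym2.map_mk]
      decide
    rw [h3] at h2
    unfold supportGraph at h2
    rw [SimpleGraph.edgeSet_fromEdgeSet] at h2
    obtain ⟨⟨v, _, e, _, he⟩, _⟩ := h2
    have h4 : thetaGraph.Adj e.1.1 e.1.2 := e.2.2
    have h5 : thetaGraph.Adj 2 4 := by
      rw [Sym2.eq_iff] at he
      rcases he with ⟨a, b⟩ | ⟨a, b⟩
      · rw [a, b]; exact h4
      · rw [a, b]; exact h4.symm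
    revert h5
    show ¬ (_ ∨ _)
    decide

end Pool.Agent.Lib.MP_349275_al
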