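import Pool.Agent.Lib.MP_349275_al.Check

/-!
The relation of length seven.
-/

set_option autoImplicit false

namespace Pool.Agent.Lib.MP_349275_al

section Aux

variable {A : Type*} [Ring A]

theorem aux_tri1 (a b c : A) (h : a * b + b * (-c) + (-c) * a = 0) : a * b = b * c + c * a := by
  rw [mul_neg, neg_mul] at h
  have h2 : a * b - (b * c + c * a) = 0 := by rw [← h]; abel
  exact sub_eq_zero.mp h2

theorem aux_tri2 (a b c : A) (h : c * (-b) + (-b) * (-a) + (-a) * c = 0) :
    b * a = c * b + a * c := by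
  rw [mul_neg, neg_mul_neg, neg_mul] at h
  have h2 : b * a - (c * b + a * c) = 0 := by rw [← h]; abel
  exact sub_eq_zero.mp h2

theorem aux_braid (a b : A) (h : (-a) * b * (-a) = b * (-a) * b) : a * b * a + b * a * b = 0 := by
  rw [neg_mul, neg_mul_neg, mul_neg, neg_mul] at h
  rw [h, neg_add_cancel]

theorem aux_braid' (a b : A) (h : b * (-a) * b = (-a) * b * (-a)) : b * a * b + a * b * a = 0 := by
  rw [add_comm]
  exact aux_braid a b h.symm

/-- The star relation. -/
theorem star_aux (b t q u : A) (hbt : b * t = t * u - u * b)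
    (huq : u * q = q * u) (h1 : b * q * b + q * b * q = 0) (h2 : t * q * t + q * t * q = 0) :
    b * t * q * b + q * b * t * q + t * q * b * t = 0 := by
  have e1 : b * t * q * b = t * q * u * b - u * (b * q * b) := by
    rw [hbt, sub_mul, sub_mul, mul_assoc t u q, huq]
    simp only [mul_assoc]
  have e2 : q * b * t * q = q * t * q * u - u * (q * b * q) := by
    have e2' : q * b * t * q = q * t * (u * q) - q * u * b * q := by
      rw [mul_assoc q b t, hbt, mul_sub, sub_mul]
      simp only [mul_assoc]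
    rw [e2', huq, ← huq]
    simp only [mul_assoc]
    rw [huq]
  have e3 : t * q * b * t = t * q * t * u - t * q * u * b := by
    rw [mul_assoc (t * q) b t, hbt, mul_sub]
    simp only [mul_assoc]
  have e4 : b * t * q * b + q * b * t * q + t * q * b * t =
      (t * q * t + q * t * q) * u - u * (b * q * b + q * b * q) := by
    rw [e1, e2, e3, add_mul, mul_add]
    abel
  rw [e4, h1, h2]
  simp

/-- The relation of a four-cycle. -/
theorem cycle_aux (q c s d f : A) (h1 : d * q = q * f + f * d) (h2 : c * s = f * c + s * f)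
    (hqs : q * s = s * q) (hcd : c * d = d * c) :
    q * c * s + c * s * d = d * q * c + s * d * q := by
  have e1 : q * c * s = q * f * c + q * s * f := by rw [mul_assoc, h2, mul_add]; simp only [mul_assoc]
  have e2 : c * s * d = f * c * d + s * f * d := by rw [h2, add_mul]
  have e3 : d * q * c = q * f * c + f * d * c := by rw [h1, add_mul]
  have e4 : s * d * q = s * q * f + s * f * d := by
    rw [mul_assoc, h1, mul_add]; simp only [mul_assoc]
  rw [e1, e2, e3, e4, hqs, mul_assoc f c d, hcd, ← mul_assoc]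
  abel

end Aux

section General

variable {n : ℕ}

theorem x_swap {i j : Fin n} (h : i ≠ j) : x j i h.symm = - x i j h := by
  unfold x
  rw [RingQuot.mkAlgHom_rel ℚ (FKRel.antisymm i j h), map_neg]

theorem x_sq {i j : Fin n} (h : i ≠ j) : x i j h * x i j h = 0 := by
  unfold x
  rw [← map_mul, RingQuot.mkAlgHom_rel ℚ (FKRel.square i j h), map_zero]

theorem x_comm {i j k l : Fin n} (hij : i ≠ j) (hkl : k ≠ l) (hik : i ≠ k) (hil : i ≠ l)
    (hjk : j ≠ k) (hjl : j ≠ l) : x i j hij * x k l hkl = x k l hkl * x i j hij := by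
  unfold x
  rw [← map_mul, RingQuot.mkAlgHom_rel ℚ (FKRel.commute i j k l hij hkl hik hil hjk hjl), map_mul]

theorem x_tri {i j k : Fin n} (hij : i ≠ j) (hjk : j ≠ k) (hki : k ≠ i) :
    x i j hij * x j k hjk + x j k hjk * x k i hki + x k i hki * x i j hij = 0 := by
  unfold x
  rw [← map_mul, ← map_mul, ← map_mul, ← map_add, ← map_add,
    RingQuot.mkAlgHom_rel ℚ (FKRel.triangle i j k hij hjk hki), map_zero]

/-- The generators, extended by zero to all the letters. -/
noncomputable def y (e : Let n) : FK n := if h : e.1 ≠ e.2 then x e.1 e.2 h else 0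

theorem y_swap (i j : Fin n) (h : i ≠ j) : y (j, i) = - y (i, j) := by
  unfold y
  rw [dif_pos h, dif_pos h.symm]
  exact x_swap h

theorem y_sq (e : Let n) : y e * y e = 0 := by
  unfold y
  split_ifs with h
  · exact x_sq h
  · simp

theorem y_comm (e f : Let n) (h : e.1 ≠ f.1 ∧ e.1 ≠ f.2 ∧ e.2 ≠ f.1 ∧ e.2 ≠ f.2) :
    y e * y f = y f * y e := by
  unfold y
  split_ifs with h1 h2
  · exact x_comm _ _ h.1 h.2.1 h.2.2.1 h.2.2.2
  · simp
  · simp
  · simp

theorem y_tri {i j k : Fin n} (hij : i ≠ j) (hjk : j ≠ k) (hki : k ≠ i) :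
    y (i, j) * y (j, k) + y (j, k) * y (k, i) + y (k, i) * y (i, j) = 0 := by
  unfold y
  rw [dif_pos hij, dif_pos hjk, dif_pos hki]
  exact x_tri hij hjk hki

/-- First form of the three term relation. -/
theorem y_tri1 {i j k : Fin n} (hij : i ≠ j) (hjk : j ≠ k) (hik : i ≠ k) :
    y (i, j) * y (j, k) = y (j, k) * y (i, k) + y (i, k) * y (i, j) := by
  have h := y_tri hij hjk hik.symm
  rw [y_swap i k hik] at h
  exact aux_tri1 _ _ _ h

/-- Second form of the three term relation. -/
theorem y_tri2 {i j k : Fin n} (hij : i ≠ j) (hjk : j ≠ k) (hik : i ≠ k) :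
    y (j, k) * y (i, j) = y (i, k) * y (j, k) + y (i, j) * y (i, k) := by
  have h := y_tri hik hjk.symm hij.symm
  rw [y_swap j k hjk, y_swap i j hij] at h
  exact aux_tri2 _ _ _ h

/-- The braid relation for a path. -/
theorem y_braid {i j k : Fin n} (hij : i ≠ j) (hjk : j ≠ k) (hik : i ≠ k) :
    y (i, j) * y (j, k) * y (i, j) = y (j, k) * y (i, j) * y (j, k) := by
  have h1 : y (i, j) * y (j, k) * y (i, j) = y (j, k) * y (i, k) * y (i, j) := by
    rw [y_tri1 hij hjk hik, add_mul, mul_assoc (y (i, k)), y_sq, mul_zero, add_zero]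
  have h2 : y (j, k) * y (i, j) * y (j, k) = y (j, k) * y (i, k) * y (i, j) := by
    rw [mul_assoc, y_tri1 hij hjk hik, mul_add, ← mul_assoc, y_sq, zero_mul, zero_add, mul_assoc]
  rw [h1, h2]

/-- The braid relation for two edges `ij`, `ik`. -/
theorem y_braid_out {i j k : Fin n} (hij : i ≠ j) (hjk : j ≠ k) (hik : i ≠ k) :
    y (i, j) * y (i, k) * y (i, j) + y (i, k) * y (i, j) * y (i, k) = 0 := by
  have h := y_braid hij.symm hik hjk
  rw [y_swap i j hij] at h
  exact aux_braid _ _ h

/-- The braid relation for two edges `ik`, `jk`. -/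
theorem y_braid_in {i j k : Fin n} (hij : i ≠ j) (hjk : j ≠ k) (hik : i ≠ k) :
    y (i, k) * y (j, k) * y (i, k) + y (j, k) * y (i, k) * y (j, k) = 0 := by
  have h := y_braid hik hjk.symm hij
  rw [y_swap j k hjk] at h
  exact aux_braid' _ _ h

end General

end Pool.Agent.Lib.MP_349275_al
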